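import Mathlib

/-! The numerical parameters. -/

namespace Pool.Agent.Hhelper46.OR

/-- the sequence of block sizes, from the deepest type upwards -/
def aa (D : ℕ) : ℕ → ℕ
  | 0 => 1
  | j + 1 => 576 * D ^ 3 * (D + 1) * (aa D j) ^ 3

theorem aa_pos (D : ℕ) (hD : 1 ≤ D) (j : ℕ) : 1 ≤ aa D j := by
  induction j with
  | zero => exact le_rfl
  | succ j ih =>
    unfold aa
    have : 0 < 576 * D ^ 3 * (D + 1) * (aa D j) ^ 3 := by positivity
    exact this

theorem aa_dvd_succ (D : ℕ) (j : ℕ) : aa D j ∣ aa D (j + 1) := by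
  show aa D j ∣ 576 * D ^ 3 * (D + 1) * (aa D j) ^ 3
  exact Dvd.intro_left (576 * D ^ 3 * (D + 1) * (aa D j) ^ 2) (by ring)

theorem aa_dvd (D : ℕ) {i j : ℕ} (h : i ≤ j) : aa D i ∣ aa D j := by
  induction j, h using Nat.le_induction with
  | base => exact dvd_rfl
  | succ m _ ih => exact ih.trans (aa_dvd_succ D m)

theorem aa_mono (D : ℕ) (hD : 1 ≤ D) {i j : ℕ} (h : i ≤ j) : aa D i ≤ aa D j :=
  Nat.le_of_dvd (aa_pos D hD j) (aa_dvd D h)

/-- the parameters -/
structure Exps (D : ℕ) where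
  c : ℕ → ℕ
  τ : ℕ → ℕ
  ρ : ℕ → ℕ
  ω : ℕ → ℕ
  η : ℕ → ℕ
  S : ℕ
  E : ℕ
  R0 : ℕ
  lam : ℕ
  hc0 : c 0 = 0
  hc1 : ∀ k, 1 ≤ k → 1 ≤ c k
  hω : ∀ k, ω k = c k * (2 * ρ k) ^ 2 + 2
  hη0 : η 0 = 0
  hη : ∀ k, η (k + 1) = η k + 2 * ω k + 1
  hτc : ∀ k, 1 ≤ k → k ≤ 2 * D - 2 → 2 * (S * D) + 1 ≤ c k * τ k
  hcond : ∀ k, k < 2 * D - 2 → D ^ 2 * (τ (k + 1) * (2 * ρ k)) ≤ ρ k ^ 2
  hτ : ∀ k, 1 ≤ k → τ (k + 1) ≤ τ k
  hρ : ∀ k, 1 ≤ ρ k
  hR : ∀ k, 2 * ρ k ≤ R0
  hηE : η (2 * D - 1) < E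
  hlam : ∀ k, k ≤ 2 * D - 2 → 4 * ρ k * η k + 2 * ω k ≤ lam
  hS : S + lam + 3 ≤ E
  hES : E = 2 * S

/-- half sizes of the patterns -/
def pρ (D k : ℕ) : ℕ := aa D (2 * D - 2 - k)

def pA (D : ℕ) : ℕ := aa D (2 * D - 2)

def pc (D k : ℕ) : ℕ := if k = 0 then 0 else 400 * D * (pA D / pρ D k) ^ 3

def pω (D k : ℕ) : ℕ := pc D k * (2 * pρ D k) ^ 2 + 2

def pη (D : ℕ) : ℕ → ℕ
  | 0 => 0
  | k + 1 => pη D k + 2 * pω D k + 1

theorem pη_succ (D k : ℕ) : pη D (k + 1) = pη D k + 2 * pω D k + 1 := rfl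

def pS (D : ℕ) : ℕ := 57600 * D ^ 2 * (pA D) ^ 3

theorem pρ_mono (D : ℕ) (hD : 1 ≤ D) (k : ℕ) : pρ D (k + 1) ≤ pρ D k :=
  aa_mono D hD (by omega)

theorem pρ_le (D : ℕ) (hD : 1 ≤ D) (k : ℕ) : pρ D k ≤ pA D := aa_mono D hD (by omega)

theorem pρ_dvd (D k : ℕ) : pρ D k ∣ pA D := aa_dvd D (by omega)

theorem pc_mul (D : ℕ) (k : ℕ) (hk : 1 ≤ k) :
    pc D k * (288 * D * (pρ D k) ^ 3) = 2 * pS D := by
  unfold pc pS
  rw [if_neg (by omega)]
  have h : pA D / pρ D k * pρ D k = pA D := Nat.div_mul_cancel (pρ_dvd D k)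
  calc 400 * D * (pA D / pρ D k) ^ 3 * (288 * D * (pρ D k) ^ 3)
      = 115200 * D ^ 2 * (pA D / pρ D k * pρ D k) ^ 3 := by ring
    _ = 2 * (57600 * D ^ 2 * (pA D) ^ 3) := by rw [h]; ring

/-- the basic estimate for `ω`. -/
theorem pω_bound (D : ℕ) (k : ℕ) :
    288 * D * pρ D k * (2 * pω D k + 1) ≤ 8 * (2 * pS D) + 5 * (288 * D) * pρ D k := by
  unfold pω
  rcases Nat.eq_zero_or_pos k with h | h
  · subst h
    have : pc D 0 = 0 := by simp [pc]
    rw [this]
    nlinarith [Nat.zero_le (pS D), Nat.zero_le (D * pρ D 0)]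
  · have h1 := pc_mul D k h
    calc 288 * D * pρ D k * (2 * (pc D k * (2 * pρ D k) ^ 2 + 2) + 1)
        = 8 * (pc D k * (288 * D * (pρ D k) ^ 3)) + 5 * (288 * D) * pρ D k := by ring
      _ ≤ _ := by rw [h1]

theorem pη_bound (D : ℕ) (hD : 1 ≤ D) (k : ℕ) :
    288 * D * pρ D k * pη D k ≤ k * (8 * (2 * pS D) + 5 * (288 * D) * pA D) := by
  induction k with
  | zero => simp [pη]
  | succ k ih =>
    have h1 := pω_bound D k
    have h2 := pρ_mono D hD k
    have h3 := pρ_le D hD k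
    calc 288 * D * pρ D (k + 1) * pη D (k + 1)
        ≤ 288 * D * pρ D k * pη D (k + 1) :=
          Nat.mul_le_mul_right _ (Nat.mul_le_mul_left _ h2)
      _ = 288 * D * pρ D k * pη D k + 288 * D * pρ D k * (2 * pω D k + 1) := by
          rw [pη_succ]; ring
      _ ≤ k * (8 * (2 * pS D) + 5 * (288 * D) * pA D) +
          (8 * (2 * pS D) + 5 * (288 * D) * pρ D k) := Nat.add_le_add ih h1
      _ ≤ k * (8 * (2 * pS D) + 5 * (288 * D) * pA D) +
          (8 * (2 * pS D) + 5 * (288 * D) * pA D) := by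
          apply Nat.add_le_add_left
          apply Nat.add_le_add_left
          exact Nat.mul_le_mul_left _ h3
      _ = _ := by ring

theorem pS_large (D : ℕ) (hD : 1 ≤ D) : 40 * D * pA D + 20 * D + 7 ≤ pS D / 2 := by
  have hA : 1 ≤ pA D := aa_pos D hD _
  have h1 : pS D = 2 * (28800 * D ^ 2 * (pA D) ^ 3) := by unfold pS; ring
  rw [h1, Nat.mul_div_cancel_left _ (by norm_num)]
  have h2 : D * pA D ≤ D ^ 2 * (pA D) ^ 3 := by
    apply Nat.mul_le_mul
    · exact Nat.le_self_pow (by norm_num) D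
    · exact Nat.le_self_pow (by norm_num) _
  have h3 : D ≤ D * pA D := Nat.le_mul_of_pos_right D hA
  have h4 : 1 ≤ D * pA D := Nat.mul_pos hD hA
  nlinarith

/-- the parameters exist -/
def exps (D : ℕ) (hD : 1 ≤ D) : Exps D where
  c := pc D
  τ := fun k => (D + 1) * (288 * D * (pρ D k) ^ 3)
  ρ := pρ D
  ω := pω D
  η := pη D
  S := pS D
  E := 2 * pS D
  R0 := 2 * pA D
  lam := pS D - 3
  hc0 := by simp [pc]
  hc1 := by
    intro k hk
    unfold pc
    rw [if_neg (by omega)]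
    have h1 : 1 ≤ pA D / pρ D k :=
      Nat.div_pos (pρ_le D hD k) (aa_pos D hD _)
    have : 0 < 400 * D * (pA D / pρ D k) ^ 3 := by positivity
    exact this
  hω := fun k => rfl
  hη0 := rfl
  hη := fun k => rfl
  hτc := by
    intro k hk _
    have h1 := pc_mul D k hk
    have h2 : 1 ≤ pS D := by
      have := pS_large D hD
      omega
    calc 2 * (pS D * D) + 1 ≤ 2 * (pS D * D) + 2 * pS D := by omega
      _ = (D + 1) * (2 * pS D) := by ring
      _ = pc D k * ((D + 1) * (288 * D * (pρ D k) ^ 3)) := by rw [← h1]; ring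
  hcond := by
    intro k hk
    have h1 : pρ D k = 576 * D ^ 3 * (D + 1) * (pρ D (k + 1)) ^ 3 := by
      unfold pρ
      have : 2 * D - 2 - k = (2 * D - 2 - (k + 1)) + 1 := by omega
      rw [this]
      rfl
    have h2 : D ^ 2 * ((D + 1) * (288 * D * (pρ D (k + 1)) ^ 3) * (2 * pρ D k)) =
        (576 * D ^ 3 * (D + 1) * (pρ D (k + 1)) ^ 3) * pρ D k := by ring
    rw [h2, ← h1]
    rw [pow_two]
  hτ := by
    intro k _
    apply Nat.mul_le_mul_left
    apply Nat.mul_le_mul_left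
    exact Nat.pow_le_pow_left (pρ_mono D hD k) 3
  hρ := fun k => aa_pos D hD _
  hR := fun k => Nat.mul_le_mul_left 2 (pρ_le D hD k)
  hηE := by
    have h1 := pη_bound D hD (2 * D - 1)
    have hρ1 : pρ D (2 * D - 1) = 1 := by
      unfold pρ
      have : 2 * D - 2 - (2 * D - 1) = 0 := by omega
      rw [this]
      rfl
    rw [hρ1] at h1
    have h2 := pS_large D hD
    by_contra hc
    push Not at hc
    have h3 : 288 * D * (2 * pS D) ≤ 2 * D * (8 * (2 * pS D) + 5 * (288 * D) * pA D) := by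
      calc 288 * D * (2 * pS D) ≤ 288 * D * 1 * pη D (2 * D - 1) := by
            rw [mul_one]; exact Nat.mul_le_mul_left _ hc
        _ ≤ (2 * D - 1) * (8 * (2 * pS D) + 5 * (288 * D) * pA D) := h1
        _ ≤ _ := Nat.mul_le_mul_right _ (by omega)
    have h4 : 288 * (2 * pS D) ≤ 2 * (8 * (2 * pS D) + 5 * (288 * D) * pA D) := by
      have : D * (288 * (2 * pS D)) ≤ D * (2 * (8 * (2 * pS D) + 5 * (288 * D) * pA D)) := by
        calc D * (288 * (2 * pS D)) = 288 * D * (2 * pS D) := by ring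
          _ ≤ _ := h3
          _ = _ := by ring
      exact Nat.le_of_mul_le_mul_left this hD
    have h5 : 2 * (5 * (288 * D) * pA D) = 72 * (40 * D * pA D) := by ring
    have h6 : 40 * D * pA D ≤ pS D / 2 := by omega
    have h7 : 1 ≤ pS D := by omega
    have h8 : 2 * (8 * (2 * pS D) + 5 * (288 * D) * pA D) = 32 * pS D + 72 * (40 * D * pA D) := by
      ring
    rw [h8] at h4
    omega
  hlam := by
    intro k hk
    have h1 := pη_bound D hD k
    have h2 := pS_large D hD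
    have h3 : 288 * (4 * pρ D k * pη D k) ≤ 64 * (2 * pS D) + 288 * (40 * D * pA D) := by
      have : D * (288 * (4 * pρ D k * pη D k)) ≤
          D * (64 * (2 * pS D) + 288 * (40 * D * pA D)) := by
        calc D * (288 * (4 * pρ D k * pη D k)) = 4 * (288 * D * pρ D k * pη D k) := by ring
          _ ≤ 4 * (k * (8 * (2 * pS D) + 5 * (288 * D) * pA D)) := Nat.mul_le_mul_left _ h1
          _ ≤ 4 * ((2 * D) * (8 * (2 * pS D) + 5 * (288 * D) * pA D)) := by
              apply Nat.mul_le_mul_left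
              apply Nat.mul_le_mul_right
              omega
          _ = _ := by ring
      exact Nat.le_of_mul_le_mul_left this hD
    have h4 : 288 * (2 * pω D k) ≤ 8 * (2 * pS D) + 288 * 4 := by
      unfold pω
      rcases Nat.eq_zero_or_pos k with h | h
      · subst h
        have : pc D 0 = 0 := by simp [pc]
        rw [this]
        omega
      · have h5 := pc_mul D k h
        have h6 : pc D k * (2 * pρ D k) ^ 2 * 72 ≤ 2 * pS D := by
          rw [← h5]
          calc pc D k * (2 * pρ D k) ^ 2 * 72 = pc D k * (288 * 1 * (pρ D k) ^ 2) := by ring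
            _ ≤ pc D k * (288 * D * (pρ D k) ^ 3) := by
              apply Nat.mul_le_mul_left
              apply Nat.mul_le_mul
              · exact Nat.mul_le_mul_left _ hD
              · exact Nat.pow_le_pow_right (aa_pos D hD _) (by norm_num)
        omega
    omega
  hS := by
    have h2 := pS_large D hD
    omega
  hES := rfl

end Pool.Agent.Hhelper46.OR
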