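import Pool.Agent.Hhelper46.OR.BipMain
import Pool.Agent.Hhelper46.OR.Params

/-! The numerical hypotheses hold for large `m`. -/

namespace Pool.Agent.Hhelper46.OR

open Finset

theorem exp_neg_two_le : Real.exp (-2) ≤ 1 / 4 := by
  have h1 : (2 : ℝ) ≤ Real.exp 1 := by
    have := Real.add_one_le_exp (1 : ℝ)
    linarith
  have h2 : Real.exp (-2) = 1 / (Real.exp 1 * Real.exp 1) := by
    rw [← Real.exp_add, one_div, ← Real.exp_neg]
    norm_num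
  rw [h2]
  rw [div_le_div_iff₀ (by positivity) (by norm_num)]
  nlinarith

theorem nat_le_exp (a : ℕ) : (a : ℝ) ≤ Real.exp a := by
  have := Real.add_one_le_exp (a : ℝ)
  linarith

theorem natpow_le_exp (a b : ℕ) : ((a : ℝ)) ^ b ≤ Real.exp (a * b) := by
  calc (a : ℝ) ^ b ≤ (Real.exp a) ^ b := pow_le_pow_left₀ (by positivity) (nat_le_exp a) b
    _ = Real.exp (a * b) := by rw [← Real.exp_nat_mul]; ring_nf

theorem one_sub_pow_le (x : ℝ) (hx : x ≤ 1) (k : ℕ) : (1 - x) ^ k ≤ Real.exp (-(k * x)) := by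
  calc (1 - x) ^ k ≤ (Real.exp (-x)) ^ k :=
        pow_le_pow_left₀ (by linarith) (Real.one_sub_le_exp_neg x) k
    _ = Real.exp (-(k * x)) := by rw [← Real.exp_nat_mul]; ring_nf

theorem asym_F {m R0 SD c τ : ℕ} (hm : 4 * R0 * 2 ^ (R0 ^ 2) ≤ m) (hm1 : 1 ≤ m)
    (h : 2 * SD + 1 ≤ c * τ) :
    ∑ r ∈ Finset.Icc 1 R0, (((m ^ SD : ℕ) : ℝ)) ^ (2 * r) *
      ((2 : ℝ) ^ (r ^ 2) / ((m ^ c : ℕ) : ℝ) ^ (τ * r)) ≤ 1 / 4 := by
  have hm' : (0 : ℝ) < m := by exact_mod_cast hm1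
  have hm1' : (1 : ℝ) ≤ m := by exact_mod_cast hm1
  have hterm : ∀ r ∈ Finset.Icc 1 R0, (((m ^ SD : ℕ) : ℝ)) ^ (2 * r) *
      ((2 : ℝ) ^ (r ^ 2) / ((m ^ c : ℕ) : ℝ) ^ (τ * r)) ≤ (2 : ℝ) ^ (R0 ^ 2) / m := by
    intro r hr
    rw [Finset.mem_Icc] at hr
    push_cast
    rw [← pow_mul, ← pow_mul]
    have e1 : SD * (2 * r) + 1 ≤ c * (τ * r) := by
      have : (2 * SD + 1) * r ≤ c * τ * r := Nat.mul_le_mul_right r h
      nlinarith [hr.1]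
    have h1 : (m : ℝ) ^ (SD * (2 * r)) * m ≤ (m : ℝ) ^ (c * (τ * r)) := by
      rw [← pow_succ]
      exact pow_le_pow_right₀ hm1' e1
    have h2 : (2 : ℝ) ^ (r ^ 2) ≤ (2 : ℝ) ^ (R0 ^ 2) :=
      pow_le_pow_right₀ (by norm_num) (Nat.pow_le_pow_left hr.2 2)
    rw [← mul_div_assoc, div_le_div_iff₀ (by positivity) hm']
    calc (m : ℝ) ^ (SD * (2 * r)) * 2 ^ (r ^ 2) * m
        = 2 ^ (r ^ 2) * ((m : ℝ) ^ (SD * (2 * r)) * m) := by ring
      _ ≤ 2 ^ (R0 ^ 2) * (m : ℝ) ^ (c * (τ * r)) :=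
        mul_le_mul h2 h1 (by positivity) (by positivity)
  refine (Finset.sum_le_sum hterm).trans ?_
  rw [Finset.sum_const, Nat.card_Icc, nsmul_eq_mul, Nat.add_sub_cancel]
  rw [← mul_div_assoc, div_le_div_iff₀ hm' (by norm_num)]
  have : ((4 * R0 * 2 ^ (R0 ^ 2) : ℕ) : ℝ) ≤ (m : ℝ) := by exact_mod_cast hm
  push_cast at this
  linarith

theorem asym_G {m R0 SD c ρ ω P : ℕ} (hP0 : 1 ≤ P) (hP : P ^ ((2 * ρ) ^ 2) ≤
      2 ^ (R0 ^ 2) * m ^ (c * (2 * ρ) ^ 2))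
    (hω : ω = c * (2 * ρ) ^ 2 + 2) (hρ : 2 * ρ ≤ R0)
    (hm : 2 ^ (R0 ^ 2) * (2 * R0 * SD + 2) ≤ m) (hm1 : 1 ≤ m) :
    (((m ^ SD : ℕ) : ℝ)) ^ (2 * (m ^ ω * (2 * ρ))) *
      (1 - 1 / (P : ℝ) ^ ((2 * ρ) ^ 2)) ^ ((m ^ ω) ^ 2) ≤ 1 / 4 := by
  have hm' : (0 : ℝ) < m := by exact_mod_cast hm1
  have hm1' : (1 : ℝ) ≤ m := by exact_mod_cast hm1
  have hP0' : (1 : ℝ) ≤ P := by exact_mod_cast hP0
  set Q : ℝ := (P : ℝ) ^ ((2 * ρ) ^ 2) with hQ
  have hQ1 : 1 ≤ Q := one_le_pow₀ hP0'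
  have hQ0 : 0 < Q := by linarith
  set W : ℝ := (2 : ℝ) ^ (R0 ^ 2) with hW
  have hW0 : 0 < W := by positivity
  have hW1 : 1 ≤ W := one_le_pow₀ (by norm_num)
  have hQle : Q ≤ W * (m : ℝ) ^ (c * (2 * ρ) ^ 2) := by
    have : ((P ^ ((2 * ρ) ^ 2) : ℕ) : ℝ) ≤ ((2 ^ (R0 ^ 2) * m ^ (c * (2 * ρ) ^ 2) : ℕ) : ℝ) := by
      exact_mod_cast hP
    push_cast at this
    exact this
  set Z : ℝ := (m : ℝ) ^ ω with hZ
  have hZ1 : 1 ≤ Z := one_le_pow₀ hm1'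
  -- first factor
  have h1 : (((m ^ SD : ℕ) : ℝ)) ^ (2 * (m ^ ω * (2 * ρ))) ≤
      Real.exp (2 * R0 * SD * m * Z) := by
    push_cast
    rw [← pow_mul]
    refine (natpow_le_exp m _).trans ?_
    apply Real.exp_le_exp.2
    push_cast
    have hρ' : (2 : ℝ) * ρ ≤ R0 := by exact_mod_cast hρ
    calc (m : ℝ) * (SD * (2 * ((m : ℝ) ^ ω * (2 * ρ)))) = 2 * (2 * ρ) * SD * m * Z := by
          rw [hZ]; ring
      _ ≤ 2 * R0 * SD * m * Z := by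
          have : (0 : ℝ) ≤ SD * m * Z := by positivity
          nlinarith
  -- second factor
  have h2 : (1 - 1 / Q) ^ ((m ^ ω) ^ 2) ≤ Real.exp (-(Z * (m : ℝ) ^ 2 / W)) := by
    refine (one_sub_pow_le (1 / Q) (by rw [div_le_one hQ0]; exact hQ1) _).trans ?_
    apply Real.exp_le_exp.2
    apply neg_le_neg
    push_cast
    rw [mul_one_div, div_le_div_iff₀ hW0 hQ0]
    have hZ2 : ((m : ℝ) ^ ω) ^ 2 = Z * ((m : ℝ) ^ (c * (2 * ρ) ^ 2) * (m : ℝ) ^ 2) := by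
      rw [pow_two, ← hZ]
      congr 1
      rw [← pow_add, hZ, hω]
    calc Z * (m : ℝ) ^ 2 * Q ≤ Z * (m : ℝ) ^ 2 * (W * (m : ℝ) ^ (c * (2 * ρ) ^ 2)) :=
          mul_le_mul_of_nonneg_left hQle (by positivity)
      _ = ((m : ℝ) ^ ω) ^ 2 * W := by rw [hZ2]; ring
  have h3 : 0 ≤ 1 - 1 / Q := by
    have : 1 / Q ≤ 1 := by rw [div_le_one hQ0]; exact hQ1
    linarith
  calc (((m ^ SD : ℕ) : ℝ)) ^ (2 * (m ^ ω * (2 * ρ))) * (1 - 1 / Q) ^ ((m ^ ω) ^ 2)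
      ≤ Real.exp (2 * R0 * SD * m * Z) * Real.exp (-(Z * (m : ℝ) ^ 2 / W)) :=
        mul_le_mul h1 h2 (by positivity) (by positivity)
    _ = Real.exp (2 * R0 * SD * m * Z - Z * (m : ℝ) ^ 2 / W) := by
        rw [← Real.exp_add]; ring_nf
    _ ≤ Real.exp (-2) := by
        apply Real.exp_le_exp.2
        have h5 : W * (2 * R0 * SD + 2) ≤ m := by
          have : ((2 ^ (R0 ^ 2) * (2 * R0 * SD + 2) : ℕ) : ℝ) ≤ (m : ℝ) := by exact_mod_cast hm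
          push_cast at this
          exact this
        have h6 : (2 * R0 * SD + 2) * m ≤ (m : ℝ) ^ 2 / W := by
          rw [le_div_iff₀ hW0]
          calc (2 * R0 * SD + 2) * m * W = (W * (2 * R0 * SD + 2)) * m := by ring
            _ ≤ m * m := mul_le_mul_of_nonneg_right h5 hm'.le
            _ = (m : ℝ) ^ 2 := by ring
        have h7 : Z * ((2 * R0 * SD + 2) * m) ≤ Z * ((m : ℝ) ^ 2 / W) :=
          mul_le_mul_of_nonneg_left h6 (by positivity)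
        have h8 : 2 ≤ Z * (2 * m) := by nlinarith
        calc 2 * R0 * SD * m * Z - Z * (m : ℝ) ^ 2 / W
            = Z * ((2 * R0 * SD + 2) * m) - Z * (2 * m) - Z * ((m : ℝ) ^ 2 / W) := by ring
          _ ≤ -2 := by linarith
    _ ≤ 1 / 4 := exp_neg_two_le

theorem asym_tests {m S D E lam : ℕ} (hE : S + lam + 3 ≤ E)
    (hm : 2 * (2 * D + 2 * (S * D) + 4 * (E + 1) + 2) ≤ m) (hm1 : 2 ≤ m) :
    ((D * D * (((m ^ S) ^ D) * ((m ^ S) ^ D) *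
      ((m ^ E + 1) ^ (m ^ S + 1) * (m ^ E + 1) ^ (m ^ S + 1))) : ℕ) : ℝ) *
      (1 - 1 / (2 * (m : ℝ) ^ lam)) ^ (m ^ (E - 1)) ≤ 1 / 4 := by
  have hm' : (0 : ℝ) < m := by exact_mod_cast (by omega : 0 < m)
  have hm1' : (1 : ℝ) ≤ m := by exact_mod_cast (by omega : 1 ≤ m)
  have hm2' : (2 : ℝ) ≤ m := by exact_mod_cast hm1
  set s : ℝ := (m : ℝ) ^ S with hs
  have hs1 : 1 ≤ s := one_le_pow₀ hm1'
  have hn1 : ((m ^ E + 1 : ℕ) : ℝ) ≤ (m : ℝ) ^ (E + 1) := by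
    push_cast
    have h1 : (1 : ℝ) ≤ (m : ℝ) ^ E := one_le_pow₀ hm1'
    rw [pow_succ]
    nlinarith
  have h1 : (((m ^ E + 1) ^ (m ^ S + 1) : ℕ) : ℝ) ≤ Real.exp (2 * (E + 1) * s * m) := by
    calc (((m ^ E + 1) ^ (m ^ S + 1) : ℕ) : ℝ) = ((m ^ E + 1 : ℕ) : ℝ) ^ (m ^ S + 1) := by
          push_cast; rfl
      _ ≤ ((m : ℝ) ^ (E + 1)) ^ (m ^ S + 1) := pow_le_pow_left₀ (by positivity) hn1 _
      _ = (m : ℝ) ^ ((E + 1) * (m ^ S + 1)) := by rw [← pow_mul]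
      _ ≤ Real.exp (m * ((E + 1) * (m ^ S + 1) : ℕ)) := natpow_le_exp m _
      _ ≤ _ := by
          apply Real.exp_le_exp.2
          push_cast
          rw [← hs]
          have h2 : (0 : ℝ) ≤ ((E : ℝ) + 1) * m := by positivity
          nlinarith
  have h2 : ((((m ^ S) ^ D : ℕ)) : ℝ) ≤ Real.exp (S * D * s * m) := by
    calc ((((m ^ S) ^ D : ℕ)) : ℝ) = (m : ℝ) ^ (S * D) := by push_cast; rw [← pow_mul]
      _ ≤ Real.exp (m * (S * D : ℕ)) := natpow_le_exp m _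
      _ ≤ _ := by
          apply Real.exp_le_exp.2
          push_cast
          have h2 : (0 : ℝ) ≤ (S * D : ℝ) * m := by positivity
          nlinarith
  have h3 : ((D : ℕ) : ℝ) ≤ Real.exp (D * s * m) := by
    refine (nat_le_exp D).trans ?_
    apply Real.exp_le_exp.2
    have : (0 : ℝ) ≤ D := by positivity
    have h4 : (1 : ℝ) ≤ s * m := by nlinarith
    nlinarith
  have hX : ((D * D * (((m ^ S) ^ D) * ((m ^ S) ^ D) *
      ((m ^ E + 1) ^ (m ^ S + 1) * (m ^ E + 1) ^ (m ^ S + 1))) : ℕ) : ℝ) ≤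
      Real.exp ((2 * D + 2 * (S * D) + 4 * (E + 1)) * (s * m)) := by
    calc ((D * D * (((m ^ S) ^ D) * ((m ^ S) ^ D) *
      ((m ^ E + 1) ^ (m ^ S + 1) * (m ^ E + 1) ^ (m ^ S + 1))) : ℕ) : ℝ)
        = (D : ℝ) * D * ((((m ^ S) ^ D : ℕ) : ℝ) * (((m ^ S) ^ D : ℕ) : ℝ) *
          ((((m ^ E + 1) ^ (m ^ S + 1) : ℕ) : ℝ) * (((m ^ E + 1) ^ (m ^ S + 1) : ℕ) : ℝ))) := by
          push_cast; ring
      _ ≤ Real.exp (D * s * m) * Real.exp (D * s * m) *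
          (Real.exp (S * D * s * m) * Real.exp (S * D * s * m) *
            (Real.exp (2 * (E + 1) * s * m) * Real.exp (2 * (E + 1) * s * m))) := by
          gcongr
      _ = _ := by
          rw [← Real.exp_add, ← Real.exp_add, ← Real.exp_add, ← Real.exp_add, ← Real.exp_add]
          congr 1
          ring
  have hπ0 : (1 : ℝ) / (2 * (m : ℝ) ^ lam) ≤ 1 := by
    rw [div_le_one (by positivity)]
    have : (1 : ℝ) ≤ (m : ℝ) ^ lam := one_le_pow₀ hm1'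
    linarith
  have hY : (1 - 1 / (2 * (m : ℝ) ^ lam)) ^ (m ^ (E - 1)) ≤ Real.exp (-(s * m * (m / 2))) := by
    refine (one_sub_pow_le _ hπ0 _).trans ?_
    apply Real.exp_le_exp.2
    apply neg_le_neg
    push_cast
    rw [mul_one_div, le_div_iff₀ (by positivity)]
    have h5 : (m : ℝ) ^ (S + 2 + lam) ≤ (m : ℝ) ^ (E - 1) := pow_le_pow_right₀ hm1' (by omega)
    calc s * m * (m / 2) * (2 * (m : ℝ) ^ lam) = (m : ℝ) ^ (S + 2 + lam) := by
          rw [hs, pow_add, pow_add]; ring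
      _ ≤ _ := h5
  calc _ ≤ Real.exp ((2 * D + 2 * (S * D) + 4 * (E + 1)) * (s * m)) *
        Real.exp (-(s * m * (m / 2))) := by
        apply mul_le_mul hX hY _ (by positivity)
        apply pow_nonneg
        linarith
    _ = Real.exp (-(s * m * (m / 2 - (2 * D + 2 * (S * D) + 4 * (E + 1))))) := by
        rw [← Real.exp_add]; congr 1; ring
    _ ≤ Real.exp (-2) := by
        apply Real.exp_le_exp.2
        apply neg_le_neg
        have h6 : (2 : ℝ) * (2 * D + 2 * (S * D) + 4 * (E + 1) + 2) ≤ m := by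
          exact_mod_cast hm
        have h7 : (2 : ℝ) ≤ m / 2 - (2 * D + 2 * (S * D) + 4 * (E + 1)) := by linarith
        have h8 : (1 : ℝ) ≤ s * m := by nlinarith
        nlinarith
    _ ≤ 1 / 4 := exp_neg_two_le

theorem asym_deg {m E R0 : ℕ} (hE : 1 ≤ E) (hm : 4 * R0 ^ (E + 1) ≤ m) (hm1 : 1 ≤ m) :
    ((m ^ E : ℕ) : ℝ) * (((m ^ (E - 1) : ℕ) : ℝ) * R0) ^ (E + 1) / ((m ^ E : ℕ) : ℝ) ^ (E + 1) ≤
      1 / 4 := by
  have hm' : (0 : ℝ) < m := by exact_mod_cast hm1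
  push_cast
  rw [div_le_div_iff₀ (by positivity) (by norm_num), mul_pow, ← pow_mul, ← pow_mul]
  have h1 : ((4 * R0 ^ (E + 1) : ℕ) : ℝ) ≤ (m : ℝ) := by exact_mod_cast hm
  push_cast at h1
  have h2 : E + (E - 1) * (E + 1) + 1 = E * (E + 1) := by
    obtain ⟨e, rfl⟩ : ∃ e, E = e + 1 := ⟨E - 1, by omega⟩
    simp only [Nat.add_sub_cancel]
    ring
  calc (m : ℝ) ^ E * ((m : ℝ) ^ ((E - 1) * (E + 1)) * (R0 : ℝ) ^ (E + 1)) * 4
      = (m : ℝ) ^ (E + (E - 1) * (E + 1)) * (4 * (R0 : ℝ) ^ (E + 1)) := by rw [pow_add]; ring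
    _ ≤ (m : ℝ) ^ (E + (E - 1) * (E + 1)) * m := mul_le_mul_of_nonneg_left h1 (by positivity)
    _ = 1 * (m : ℝ) ^ (E * (E + 1)) := by rw [← pow_succ, h2, one_mul]

theorem eta_mono {D : ℕ} (e : Exps D) : Monotone e.η :=
  monotone_nat_of_le_succ fun k => by
    have := e.hη k
    omega

theorem bip_exists (D : ℕ) (hD : 1 ≤ D) (e : Exps D) : ∃ m0 : ℕ, ∀ m, m0 ≤ m →
    ∃ H : Fin (m ^ e.E) → Fin (m ^ e.E) → Prop, (∀ i, {j | H i j}.ncard ≤ (e.E + 1) * e.R0) ∧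
      (∀ j, {i | H i j}.ncard ≤ (e.E + 1) * e.R0) ∧ (∃ i j, H i j) ∧
      ∃ f : ℕ → ℕ → Bool, ∀ φ ψ : Fin (m ^ e.E) → ℕ, StrictMono φ → StrictMono ψ →
        (∀ i, φ i < (m ^ e.S) ^ D) → (∀ i, ψ i < (m ^ e.S) ^ D) → ∀ b,
          ∃ i j, H i j ∧ f (φ i) (ψ j) ≠ b := by
  refine ⟨4 * e.R0 * 2 ^ (e.R0 ^ 2) + 2 ^ (e.R0 ^ 2) * (2 * e.R0 * (e.S * D) + 2) +
    4 * e.R0 ^ 2 + 4 * e.R0 ^ (e.E + 1) +
      2 * (2 * D + 2 * (e.S * D) + 4 * (e.E + 1) + 2), ?_⟩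
  intro m hm
  have hR0 : 1 ≤ e.R0 := by
    have h1 := e.hR 0
    have h2 := e.hρ 0
    omega
  have hE1 : 1 ≤ e.E := by
    have := e.hS
    omega
  have hmA : 4 * e.R0 * 2 ^ (e.R0 ^ 2) ≤ m := by omega
  have hmB : 2 ^ (e.R0 ^ 2) * (2 * e.R0 * (e.S * D) + 2) ≤ m := by omega
  have hmC : 4 * e.R0 ^ 2 ≤ m := by omega
  have hmD : 4 * e.R0 ^ (e.E + 1) ≤ m := by omega
  have hmE : 2 * (2 * D + 2 * (e.S * D) + 4 * (e.E + 1) + 2) ≤ m := by omega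
  have hm2 : 2 ≤ m := by omega
  have hm1 : 1 ≤ m := by omega
  have hm' : (0 : ℝ) < m := by exact_mod_cast hm1
  have hm1' : (1 : ℝ) ≤ m := by exact_mod_cast hm1
  have hlam1 : (1 : ℝ) ≤ (m : ℝ) ^ e.lam := one_le_pow₀ hm1'
  refine bip_main (m ^ e.E) (m ^ e.S) D e.R0 (m ^ (e.E - 1)) (e.E + 1) (fun k => m ^ (e.E - e.η k))
    e.ρ (fun k => m ^ (e.ω k)) e.τ (fun k => if k = 0 then 2 else m ^ (e.c k))
    (1 / (2 * (m : ℝ) ^ e.lam)) (by positivity) hD (Nat.one_le_pow _ _ hm1)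
    (Nat.one_le_pow _ _ hm1) ?_ ?_ ?_ e.hρ e.hR e.hcond e.hτ ?_ ?_ ?_ ?_ ?_ ?_ ?_ ?_
  · intro k
    apply Nat.pow_le_pow_right hm1
    have := eta_mono e (Nat.le_succ k)
    simp only [Nat.succ_eq_add_one] at this
    omega
  · simp only [e.hη0, Nat.sub_zero]
    exact le_rfl
  · have := e.hηE
    calc 2 ≤ m := hm2
      _ = m ^ 1 := (pow_one m).symm
      _ ≤ m ^ (e.E - e.η (2 * D - 1)) := Nat.pow_le_pow_right hm1 (by omega)
  · intro k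
    by_cases hk : k = 0
    · simp [hk]
    · simp only [hk, if_false]
      calc 2 ≤ m := hm2
        _ = m ^ 1 := (pow_one m).symm
        _ ≤ m ^ (e.c k) := Nat.pow_le_pow_right hm1 (e.hc1 k (by omega))
  · intro k hk1 hk2
    simp only [show k ≠ 0 by omega, if_false]
    have := asym_F (m := m) (R0 := e.R0) (SD := e.S * D) (c := e.c k) (τ := e.τ k) hmA hm1
      (e.hτc k hk1 hk2)
    rw [← pow_mul]
    exact this
  · intro k _
    have := asym_G (m := m) (R0 := e.R0) (SD := e.S * D) (c := e.c k) (ρ := e.ρ k) (ω := e.ω k)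
      (P := if k = 0 then 2 else m ^ (e.c k)) (by
        by_cases hk : k = 0
        · simp [hk]
        · simp only [hk, if_false]
          exact Nat.one_le_pow _ _ hm1)
      (by
        by_cases hk : k = 0
        · subst hk
          simp only [if_true, e.hc0, zero_mul, pow_zero, mul_one]
          exact Nat.pow_le_pow_right (by norm_num) (Nat.pow_le_pow_left (e.hR 0) 2)
        · simp only [hk, if_false]
          rw [← pow_mul]
          exact Nat.le_mul_of_pos_left _ (by positivity))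
      (e.hω k) (e.hR k) hmB hm1
    rw [← pow_mul]
    exact this
  · intro k hk
    have h1 := e.hη k
    have h2 : e.η (k + 1) ≤ e.η (2 * D - 1) := eta_mono e (by omega)
    have h3 := e.hηE
    have h4 : m ^ (e.E - e.η k) = m ^ (e.E - e.η (k + 1)) * (m ^ (2 * e.ω k) * m) := by
      rw [← pow_succ, ← pow_add]
      congr 1
      omega
    rw [h4]
    have h5 : 4 * (2 * e.ρ k) ^ 2 ≤ m :=
      (Nat.mul_le_mul_left 4 (Nat.pow_le_pow_left (e.hR k) 2)).trans hmC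
    calc 4 * (m ^ e.ω k * (2 * e.ρ k)) ^ 2 * m ^ (e.E - e.η (k + 1))
        = m ^ (e.E - e.η (k + 1)) * (m ^ (2 * e.ω k) * (4 * (2 * e.ρ k) ^ 2)) := by
          rw [show 2 * e.ω k = e.ω k * 2 by ring, pow_mul]; ring
      _ ≤ _ := Nat.mul_le_mul_left _ (Nat.mul_le_mul_left _ h5)
  · intro k hk
    have h1 := e.hlam k hk
    have h2 : e.η k ≤ e.η (2 * D - 1) := eta_mono e (by omega)
    have h3 := e.hηE
    have h4 : (((m ^ (e.E - e.η k) : ℕ) : ℝ) / ((m ^ e.E : ℕ) : ℝ)) = 1 / (m : ℝ) ^ (e.η k) := by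
      push_cast
      rw [div_eq_div_iff (by positivity) (by positivity), one_mul, ← pow_add]
      congr 1
      omega
    rw [h4]
    push_cast
    rw [div_pow, one_pow, ← pow_mul, div_div, ← pow_mul]
    apply one_div_le_one_div_of_le (by positivity)
    calc (m : ℝ) ^ (e.η k * (4 * e.ρ k)) * (2 * (m : ℝ) ^ (e.ω k * 2))
        = 2 * (m : ℝ) ^ (4 * e.ρ k * e.η k + 2 * e.ω k) := by
          rw [pow_add, show e.η k * (4 * e.ρ k) = 4 * e.ρ k * e.η k by ring,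
            show e.ω k * 2 = 2 * e.ω k by ring]
          ring
      _ ≤ 2 * (m : ℝ) ^ e.lam :=
          mul_le_mul_of_nonneg_left (pow_le_pow_right₀ hm1' h1) (by norm_num)
  · exact asym_tests e.hS hmE hm2
  · rw [div_le_one (by positivity)]
    linarith
  · exact asym_deg hE1 hmD hm1

end Pool.Agent.Hhelper46.OR
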