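import Pool.Agent.Hhelper46.OR.Core

/-! Assembly: the bipartite statement under numerical hypotheses. -/

namespace Pool.Agent.Hhelper46.OR

open Finset

/-! ### Coarse maps -/

/-- monotone coarse maps -/
abbrev MonoMap (n s : ℕ) := {lam : Fin n → Fin (s + 2) // Monotone lam}

noncomputable instance (n s : ℕ) : Fintype (MonoMap n s) := by
  classical exact inferInstance

theorem card_monoMap (n s : ℕ) : Fintype.card (MonoMap n s) ≤ (n + 1) ^ (s + 1) := by
  classical
  let F : MonoMap n s → (Fin (s + 1) → Fin (n + 1)) := fun lam v =>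
    ⟨(univ.filter fun i => (lam.1 i).val ≤ v.val).card, by
      have := Finset.card_filter_le (univ : Finset (Fin n)) (fun i => (lam.1 i).val ≤ v.val)
      rw [Finset.card_univ, Fintype.card_fin] at this
      omega⟩
  have hF : Function.Injective F := by
    intro lam mu h
    have hset : ∀ (nu : MonoMap n s) (v : Fin (s + 1)) (i : Fin n),
        (nu.1 i).val ≤ v.val ↔ i.val < (univ.filter fun i => (nu.1 i).val ≤ v.val).card := by
      intro nu v i
      constructor
      · intro hi
        have hsub : (Finset.univ.filter fun j : Fin n => j.val ≤ i.val) ⊆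
            univ.filter fun j => (nu.1 j).val ≤ v.val := by
          intro j hj
          rw [Finset.mem_filter] at hj ⊢
          refine ⟨mem_univ _, ?_⟩
          have : nu.1 j ≤ nu.1 i := nu.2 hj.2
          exact le_trans this hi
        have hc : (Finset.univ.filter fun j : Fin n => j.val ≤ i.val).card = i.val + 1 := by
          have : (Finset.univ.filter fun j : Fin n => j.val ≤ i.val) = Finset.Iic i := by
            ext j
            simp only [mem_filter, mem_univ, true_and, mem_Iic]
            exact Iff.rfl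
          rw [this, Fin.card_Iic]
        have := Finset.card_le_card hsub
        omega
      · intro hi
        by_contra hne
        push Not at hne
        have hsub : (univ.filter fun j => (nu.1 j).val ≤ v.val) ⊆
            (Finset.univ.filter fun j : Fin n => j.val < i.val) := by
          intro j hj
          rw [Finset.mem_filter] at hj ⊢
          refine ⟨mem_univ _, ?_⟩
          by_contra hji
          push Not at hji
          have : nu.1 i ≤ nu.1 j := nu.2 hji
          have h2 : (nu.1 i).val ≤ (nu.1 j).val := this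
          have h3 := hj.2
          omega
        have hc : (Finset.univ.filter fun j : Fin n => j.val < i.val).card = i.val := by
          have : (Finset.univ.filter fun j : Fin n => j.val < i.val) = Finset.Iio i := by
            ext j
            simp only [mem_filter, mem_univ, true_and, mem_Iio]
            exact Iff.rfl
          rw [this, Fin.card_Iio]
        have := Finset.card_le_card hsub
        omega
    have hiff : ∀ (v : Fin (s + 1)) (i : Fin n), (lam.1 i).val ≤ v.val ↔ (mu.1 i).val ≤ v.val := by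
      intro v i
      have h1 := congrArg Fin.val (congrFun h v)
      simp only [F] at h1
      rw [hset lam v i, hset mu v i, h1]
    apply Subtype.ext
    funext i
    apply Fin.ext
    have h1 := (lam.1 i).isLt
    have h2 := (mu.1 i).isLt
    apply le_antisymm
    · by_cases hmu : (mu.1 i).val ≤ s
      · exact (hiff ⟨(mu.1 i).val, by omega⟩ i).2 le_rfl
      · omega
    · by_cases hla : (lam.1 i).val ≤ s
      · exact (hiff ⟨(lam.1 i).val, by omega⟩ i).1 le_rfl
      · omega
  calc Fintype.card (MonoMap n s) ≤ Fintype.card (Fin (s + 1) → Fin (n + 1)) :=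
        Fintype.card_le_of_injective F hF
    _ = (n + 1) ^ (s + 1) := by
        rw [Fintype.card_fun, Fintype.card_fin, Fintype.card_fin]

/-! ### Passing to subtypes -/

theorem Pr_subtype {n : ℕ} {ι : Type} [Fintype ι] [DecidableEq ι] (p q : Fin n → Prop)
    [DecidablePred p] [DecidablePred q]
    (Q : (ι → Fin n) × (ι → Fin n) → Prop) (c : ℝ) (hn : 0 < n)
    (hc : c ≤ Pr (fun w : (ι → {i // p i}) × (ι → {i // q i}) =>
      Q (fun i => (w.1 i).1, fun i => (w.2 i).1))) (a b : ℕ)
    (ha : a ≤ (univ.filter fun i => p i).card) (hb : b ≤ (univ.filter fun i => q i).card)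
    (hc0 : 0 ≤ c) :
    ((a : ℝ) / n) ^ (Fintype.card ι) * ((b : ℝ) / n) ^ (Fintype.card ι) * c ≤ Pr Q := by
  classical
  unfold Pr at hc ⊢
  have hinj : Function.Injective (fun w : (ι → {i // p i}) × (ι → {i // q i}) =>
      ((fun i => (w.1 i).1, fun i => (w.2 i).1) : (ι → Fin n) × (ι → Fin n))) := by
    rintro ⟨w1, w2⟩ ⟨v1, v2⟩ h
    simp only [Prod.mk.injEq] at h
    apply Prod.ext
    · funext i
      exact Subtype.ext (congrFun h.1 i)
    · funext i
      exact Subtype.ext (congrFun h.2 i)
  have hle : (({w : (ι → {i // p i}) × (ι → {i // q i}) |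
      Q (fun i => (w.1 i).1, fun i => (w.2 i).1)} : Set _).ncard : ℝ) ≤
      (({w | Q w} : Set ((ι → Fin n) × (ι → Fin n))).ncard : ℝ) := by
    rw [← Set.ncard_image_of_injective _ hinj]
    have : ((fun w : (ι → {i // p i}) × (ι → {i // q i}) =>
      ((fun i => (w.1 i).1, fun i => (w.2 i).1) : (ι → Fin n) × (ι → Fin n))) ''
        {w | Q (fun i => (w.1 i).1, fun i => (w.2 i).1)}) ⊆ {w | Q w} := by
      rintro _ ⟨w, hw, rfl⟩
      exact hw
    exact_mod_cast Set.ncard_le_ncard this (Set.toFinite _)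
  rw [Fintype.card_prod, Fintype.card_fun, Fintype.card_fun, Fintype.card_subtype,
    Fintype.card_subtype] at hc
  rw [Fintype.card_prod, Fintype.card_fun, Fintype.card_fin]
  set A := (univ.filter fun i => p i).card with hA
  set B := (univ.filter fun i => q i).card with hB
  set I := Fintype.card ι with hI
  push_cast at hc ⊢
  have hn' : (0 : ℝ) < n := by exact_mod_cast hn
  rcases Nat.eq_zero_or_pos (A ^ I * B ^ I) with hz | hpos
  · -- degenerate case
    have hz' : (A : ℝ) ^ I * (B : ℝ) ^ I = 0 := by exact_mod_cast hz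
    have h1 : ((a : ℝ)) ^ I * ((b : ℝ)) ^ I ≤ (A : ℝ) ^ I * (B : ℝ) ^ I :=
      mul_le_mul (pow_le_pow_left₀ (by positivity) (by exact_mod_cast ha) _)
        (pow_le_pow_left₀ (by positivity) (by exact_mod_cast hb) _) (by positivity) (by positivity)
    have h2 : ((a : ℝ)) ^ I * ((b : ℝ)) ^ I = 0 := le_antisymm (by linarith) (by positivity)
    have h3 : ((a : ℝ) / n) ^ I * ((b : ℝ) / n) ^ I * c = 0 := by
      rw [div_pow, div_pow, div_mul_div_comm, h2]
      simp
    rw [h3]
    positivity
  · have hpos' : (0 : ℝ) < (A : ℝ) ^ I * (B : ℝ) ^ I := by exact_mod_cast hpos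
    rw [le_div_iff₀ hpos'] at hc
    rw [le_div_iff₀ (by positivity)]
    calc ((a : ℝ) / n) ^ I * ((b : ℝ) / n) ^ I * c * ((n : ℝ) ^ I * (n : ℝ) ^ I)
        = c * ((a : ℝ) ^ I * (b : ℝ) ^ I) := by
          rw [div_pow, div_pow]
          field_simp
      _ ≤ c * ((A : ℝ) ^ I * (B : ℝ) ^ I) := by
          apply mul_le_mul_of_nonneg_left _ hc0
          exact mul_le_mul (pow_le_pow_left₀ (by positivity) (by exact_mod_cast ha) _)
            (pow_le_pow_left₀ (by positivity) (by exact_mod_cast hb) _) (by positivity)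
            (by positivity)
      _ ≤ _ := hc.trans hle

/-- the full test for one type -/
def GoodFull {n : ℕ} (s : ℕ) (lam lam' : Fin n → Fin (s + 2)) (z z' : ℕ) (g : ℕ → ℕ → Bool) (ρ : ℕ)
    (w : (Fin (2 * ρ) → Fin n) × (Fin (2 * ρ) → Fin n)) : Prop :=
  (∀ i, 1 ≤ (lam (w.1 i)).val ∧ (lam (w.1 i)).val ≤ s) ∧
  (∀ i, 1 ≤ (lam' (w.2 i)).val ∧ (lam' (w.2 i)).val ≤ s) ∧
  Function.Injective (fun i => lam (w.1 i)) ∧ Function.Injective (fun i => lam' (w.2 i)) ∧
  ∀ i j : Fin (2 * ρ), g (s * z + ((lam (w.1 i)).val - 1)) (s * z' + ((lam' (w.2 j)).val - 1)) =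
    decide (i.val < ρ ∧ j.val < ρ)

theorem Pr_goodFull {n : ℕ} (hn : 0 < n) (s : ℕ) (lam lam' : Fin n → Fin (s + 2)) (z z' l l' : ℕ)
    (hz : z < s ^ l) (hz' : z' < s ^ l') (g : ℕ → ℕ → Bool) (ρ Z F θ : ℕ)
    (hg : HasPatN g (s ^ (l + 1)) (s ^ (l' + 1)) ρ Z)
    (hF : ∀ v : Fin (s + 2), 1 ≤ v.val → v.val ≤ s → (univ.filter fun i => lam i = v).card ≤ F)
    (hF' : ∀ v : Fin (s + 2), 1 ≤ v.val → v.val ≤ s → (univ.filter fun i => lam' i = v).card ≤ F)
    (hθ : θ ≤ (univ.filter fun i => 1 ≤ (lam i).val ∧ (lam i).val ≤ s).card)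
    (hθ' : θ ≤ (univ.filter fun i => 1 ≤ (lam' i).val ∧ (lam' i).val ≤ s).card)
    (hθ0 : 1 ≤ θ) (hinj : 4 * (Z * (2 * ρ)) ^ 2 * F ≤ θ) :
    ((θ : ℝ) / n) ^ (4 * ρ) / (2 * (Z : ℝ) ^ 2) ≤ Pr (GoodFull s lam lam' z z' g ρ) := by
  classical
  let α := {i : Fin n // 1 ≤ (lam i).val ∧ (lam i).val ≤ s}
  let β := {i : Fin n // 1 ≤ (lam' i).val ∧ (lam' i).val ≤ s}
  have hα : Fintype.card α = (univ.filter fun i => 1 ≤ (lam i).val ∧ (lam i).val ≤ s).card :=
    Fintype.card_subtype _
  have hβ : Fintype.card β = (univ.filter fun i => 1 ≤ (lam' i).val ∧ (lam' i).val ≤ s).card :=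
    Fintype.card_subtype _
  haveI : Nonempty α := Fintype.card_pos_iff.1 (by rw [hα]; omega)
  haveI : Nonempty β := Fintype.card_pos_iff.1 (by rw [hβ]; omega)
  let la : α → Fin s := fun i => ⟨(lam i.1).val - 1, by have := i.2; omega⟩
  let lb : β → Fin s := fun i => ⟨(lam' i.1).val - 1, by have := i.2; omega⟩
  have hfib : ∀ v, (univ.filter fun a : α => la a = v).card ≤ F := by
    intro v
    have hv := v.isLt
    refine le_trans ?_ (hF ⟨v.val + 1, by omega⟩ (by simp) (by simp))
    rw [← Finset.card_map (Function.Embedding.subtype _)]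
    apply Finset.card_le_card
    intro i hi
    rw [Finset.mem_map] at hi
    obtain ⟨a, ha, rfl⟩ := hi
    rw [Finset.mem_filter] at ha ⊢
    refine ⟨mem_univ _, ?_⟩
    have h1 := congrArg Fin.val ha.2
    simp only [la] at h1
    apply Fin.ext
    have h2 := a.2
    simp only [Function.Embedding.subtype_apply]
    omega
  have hfib' : ∀ v, (univ.filter fun a : β => lb a = v).card ≤ F := by
    intro v
    have hv := v.isLt
    refine le_trans ?_ (hF' ⟨v.val + 1, by omega⟩ (by simp) (by simp))
    rw [← Finset.card_map (Function.Embedding.subtype _)]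
    apply Finset.card_le_card
    intro i hi
    rw [Finset.mem_map] at hi
    obtain ⟨a, ha, rfl⟩ := hi
    rw [Finset.mem_filter] at ha ⊢
    refine ⟨mem_univ _, ?_⟩
    have h1 := congrArg Fin.val ha.2
    simp only [lb] at h1
    apply Fin.ext
    have h2 := a.2
    simp only [Function.Embedding.subtype_apply]
    omega
  let gc : Fin s → Fin s → Bool := fun v v' => g (s * z + v.val) (s * z' + v'.val)
  have hgc : HasPat gc ρ Z := by
    intro u v hu hv
    have hlt : ∀ (z l : ℕ) (_ : z < s ^ l) (a : Fin s), s * z + a.val < s ^ (l + 1) := by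
      intro z l hz a
      have := a.isLt
      calc s * z + a.val < s * z + s := by omega
        _ = s * (z + 1) := by ring
        _ ≤ s * s ^ l := Nat.mul_le_mul_left _ hz
        _ = s ^ (l + 1) := by ring
    obtain ⟨p, p', hp⟩ := hg (fun i => s * z + (u i).val) (fun i => s * z' + (v i).val)
      (fun i j hij => hu (Fin.ext (by simpa using hij)))
      (fun i j hij => hv (Fin.ext (by simpa using hij)))
      (fun i => hlt z l hz _) (fun i => hlt z' l' hz' _)
    exact ⟨p, p', hp⟩
  have h1 := Pr_good la lb F hfib hfib' gc ρ Z hgc (by rw [hα]; exact hinj.trans hθ)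
    (by rw [hβ]; exact hinj.trans hθ')
  have h2 : Pr (GoodTuple la lb gc ρ) ≤
      Pr (fun w : (Fin (2 * ρ) → α) × (Fin (2 * ρ) → β) =>
        GoodFull s lam lam' z z' g ρ (fun i => (w.1 i).1, fun i => (w.2 i).1)) := by
    apply Pr_mono
    rintro w ⟨hw1, hw2, hw3⟩
    refine ⟨fun i => (w.1 i).2, fun i => (w.2 i).2, ?_, ?_, ?_⟩
    · intro i j hij
      apply hw1
      simp only [Function.comp_apply, la]
      apply Fin.ext
      simp only at hij ⊢
      rw [hij]
    · intro i j hij
      apply hw2
      simp only [Function.comp_apply, lb]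
      apply Fin.ext
      simp only at hij ⊢
      rw [hij]
    · intro i j
      exact hw3 i j
  have h3 := Pr_subtype (ι := Fin (2 * ρ)) (fun i : Fin n => 1 ≤ (lam i).val ∧ (lam i).val ≤ s)
    (fun i : Fin n => 1 ≤ (lam' i).val ∧ (lam' i).val ≤ s) (GoodFull s lam lam' z z' g ρ)
    (1 / (2 * (Z : ℝ) ^ 2)) hn (h1.trans h2) θ θ hθ hθ' (by positivity)
  refine le_trans (le_of_eq ?_) h3
  rw [Fintype.card_fin, ← pow_add]
  rw [show 2 * ρ + 2 * ρ = 4 * ρ by ring]
  ring

end Pool.Agent.Hhelper46.OR
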