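import Pool.Agent.Hhelper46.OR.Bip

/-! Assembly: the bipartite statement under numerical hypotheses, main theorem. -/

namespace Pool.Agent.Hhelper46.OR

open Finset

/-- index type of the tests -/
abbrev TI (n s D : ℕ) :=
  (Fin D × Fin D) × (Fin (s ^ D) × Fin (s ^ D)) × (MonoMap n s × MonoMap n s)

/-- validity of a test -/
def Valid {n s D : ℕ} (θ : ℕ → ℕ) (t : TI n s D) : Prop :=
  t.2.1.1.val < s ^ t.1.1.val ∧ t.2.1.2.val < s ^ t.1.2.val ∧
  θ (t.1.1.val + t.1.2.val) ≤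
    (univ.filter fun i => 1 ≤ (t.2.2.1.1 i).val ∧ (t.2.2.1.1 i).val ≤ s).card ∧
  θ (t.1.1.val + t.1.2.val) ≤
    (univ.filter fun i => 1 ≤ (t.2.2.2.1 i).val ∧ (t.2.2.2.1 i).val ≤ s).card ∧
  (∀ v : Fin (s + 2), 1 ≤ v.val → v.val ≤ s →
    (univ.filter fun i => t.2.2.1.1 i = v).card ≤ θ (t.1.1.val + t.1.2.val + 1)) ∧
  (∀ v : Fin (s + 2), 1 ≤ v.val → v.val ≤ s →
    (univ.filter fun i => t.2.2.2.1 i = v).card ≤ θ (t.1.1.val + t.1.2.val + 1))

/-- the coarse map of an embedding below the box `z` of level `l` -/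
def coarse {n : ℕ} (s D : ℕ) (φ : Fin n → ℕ) (l z : ℕ) (i : Fin n) : Fin (s + 2) :=
  ⟨min (pre s D (l + 1) (φ i) + 1 - s * z) (s + 1), by omega⟩

theorem coarse_mono {n : ℕ} (s D : ℕ) (φ : Fin n → ℕ) (hφ : Monotone φ) (l z : ℕ) :
    Monotone (coarse s D φ l z) := by
  intro i j hij
  have h := pre_monotone s D (l + 1) (hφ hij)
  simp only [coarse, Fin.mk_le_mk]
  omega

theorem coarse_dom {n : ℕ} (s D : ℕ) (hs : 1 ≤ s) (φ : Fin n → ℕ) (l z : ℕ) (hl : l < D)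
    (i : Fin n) : (1 ≤ (coarse s D φ l z i).val ∧ (coarse s D φ l z i).val ≤ s) ↔
      pre s D l (φ i) = z := by
  rw [← pre_succ_div s D l _ hl]
  simp only [coarse]
  rw [Nat.div_eq_iff (by omega)]
  constructor
  · intro h
    have h1 : s * z = z * s := Nat.mul_comm _ _
    omega
  · intro h
    have h1 : s * z = z * s := Nat.mul_comm _ _
    omega

theorem coarse_val {n : ℕ} (s D : ℕ) (φ : Fin n → ℕ) (l z : ℕ)
    (i : Fin n) (h : 1 ≤ (coarse s D φ l z i).val ∧ (coarse s D φ l z i).val ≤ s) :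
    s * z + ((coarse s D φ l z i).val - 1) = pre s D (l + 1) (φ i) := by
  simp only [coarse] at h ⊢
  omega

theorem coarse_fiber {n : ℕ} (s D : ℕ) (φ : Fin n → ℕ) (l z : ℕ) (v : Fin (s + 2))
    (h1 : 1 ≤ v.val) (h2 : v.val ≤ s) :
    (univ.filter fun i => coarse s D φ l z i = v).card ≤ cnt s D φ (l + 1) (s * z + (v.val - 1)) := by
  unfold cnt
  apply Finset.card_le_card
  intro i hi
  rw [Finset.mem_filter] at hi ⊢
  refine ⟨mem_univ _, ?_⟩
  have h3 := coarse_val s D φ l z i (by rw [hi.2]; exact ⟨h1, h2⟩)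
  rw [hi.2] at h3
  exact h3.symm

theorem bip_main (n s D R0 M K : ℕ) (θ ρ Z τ P : ℕ → ℕ) (π : ℝ) (hn : 0 < n)
    (hD : 1 ≤ D) (hs : 1 ≤ s) (hM : 1 ≤ M)
    (hθ : ∀ k, θ (k + 1) ≤ θ k) (h0 : θ 0 ≤ n) (hlast : 2 ≤ θ (2 * D - 1))
    (hρ : ∀ k, 1 ≤ ρ k) (hR : ∀ k, 2 * ρ k ≤ R0)
    (hcond : ∀ k, k < 2 * D - 2 → D ^ 2 * (τ (k + 1) * (2 * ρ k)) ≤ ρ k ^ 2)
    (hτ : ∀ k, 1 ≤ k → τ (k + 1) ≤ τ k)
    (hP : ∀ k, 2 ≤ P k)
    (hF : ∀ k, 1 ≤ k → k ≤ 2 * D - 2 → ∑ r ∈ Finset.Icc 1 R0,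
      ((s ^ D : ℕ) : ℝ) ^ (2 * r) * ((2 : ℝ) ^ (r ^ 2) / (P k : ℝ) ^ (τ k * r)) ≤ 1 / 4)
    (hG : ∀ k, k ≤ 2 * D - 2 → ((s ^ D : ℕ) : ℝ) ^ (2 * (Z k * (2 * ρ k))) *
      (1 - 1 / (P k : ℝ) ^ ((2 * ρ k) ^ 2)) ^ (Z k ^ 2) ≤ 1 / 4)
    (hinj : ∀ k, k ≤ 2 * D - 2 → 4 * (Z k * (2 * ρ k)) ^ 2 * θ (k + 1) ≤ θ k)
    (hπ : ∀ k, k ≤ 2 * D - 2 → π ≤ ((θ k : ℝ) / n) ^ (4 * ρ k) / (2 * (Z k : ℝ) ^ 2))
    (htests : ((D * D * ((s ^ D) * (s ^ D) * ((n + 1) ^ (s + 1) * (n + 1) ^ (s + 1))) : ℕ) : ℝ) *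
      (1 - π) ^ M ≤ 1 / 4) (hπ1 : π ≤ 1)
    (hdeg : (n : ℝ) * ((M : ℝ) * R0) ^ K / (n : ℝ) ^ K ≤ 1 / 4) :
    ∃ H : Fin n → Fin n → Prop, (∀ i, {j | H i j}.ncard ≤ K * R0) ∧
      (∀ j, {i | H i j}.ncard ≤ K * R0) ∧ (∃ i j, H i j) ∧
      ∃ f : ℕ → ℕ → Bool, ∀ φ ψ : Fin n → ℕ, StrictMono φ → StrictMono ψ →
        (∀ i, φ i < s ^ D) → (∀ i, ψ i < s ^ D) → ∀ b, ∃ i j, H i j ∧ f (φ i) (ψ j) ≠ b := by
  classical
  haveI : NeZero n := ⟨hn.ne'⟩
  -- the matrices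
  have hτanti : ∀ a b, 1 ≤ a → a ≤ b → τ b ≤ τ a := by
    intro a b ha hab
    induction b, hab using Nat.le_induction with
    | base => exact le_rfl
    | succ m hm ih => exact (hτ m (by omega)).trans ih
  have hsD : ∀ q, q < D → s ^ (q + 1) ≤ s ^ D := fun q hq => Nat.pow_le_pow_right hs (by omega)
  have hmat : ∀ q q' : ℕ, ∃ g : ℕ → ℕ → Bool, q < D → q' < D →
      ((1 ≤ q + q' → SparseN g (s ^ (q + 1)) (s ^ (q' + 1)) R0 (τ (q + q'))) ∧
      HasPatN g (s ^ (q + 1)) (s ^ (q' + 1)) (ρ (q + q')) (Z (q + q'))) := by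
    intro q q'
    by_cases hq : q < D ∧ q' < D
    · rcases Nat.eq_zero_or_pos (q + q') with h | h
      · obtain ⟨g, _, hg2⟩ := exists_matrixN (s ^ (q + 1)) (s ^ (q' + 1)) (s ^ D) (P (q + q'))
          (hP _) (hsD q hq.1) (hsD q' hq.2) (ρ (q + q')) (Z (q + q')) 0 0 (by simp)
          (hG _ (by omega))
        exact ⟨g, fun _ _ => ⟨fun h' => absurd h' (by omega), hg2⟩⟩
      · obtain ⟨g, hg1, hg2⟩ := exists_matrixN (s ^ (q + 1)) (s ^ (q' + 1)) (s ^ D) (P (q + q'))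
          (hP _) (hsD q hq.1) (hsD q' hq.2) (ρ (q + q')) (Z (q + q')) R0 (τ (q + q'))
          (hF _ h (by omega)) (hG _ (by omega))
        exact ⟨g, fun _ _ => ⟨fun _ => hg1, hg2⟩⟩
    · exact ⟨fun _ _ => false, fun h1 h2 => absurd ⟨h1, h2⟩ hq⟩
  choose G hGm using hmat
  -- the tests
  let T := {t : TI n s D // Valid θ t}
  let test : T → BV n R0 → Prop := fun t w =>
    GoodFull s t.1.2.2.1.1 t.1.2.2.2.1 t.1.2.1.1.val t.1.2.1.2.val
      (G t.1.1.1.val t.1.1.2.val) (ρ (t.1.1.1.val + t.1.1.2.val))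
      (w.1 ∘ Fin.castLE (hR _), w.2 ∘ Fin.castLE (hR _))
  have hθ2 : ∀ k, k ≤ 2 * D - 2 → 1 ≤ θ k := by
    intro k hk
    have := (antitone_nat_of_succ_le hθ) (show k ≤ 2 * D - 1 by omega)
    omega
  have hcard : Fintype.card T ≤
      D * D * ((s ^ D) * (s ^ D) * ((n + 1) ^ (s + 1) * (n + 1) ^ (s + 1))) := by
    calc Fintype.card T ≤ Fintype.card (TI n s D) := Fintype.card_subtype_le _
      _ = D * D * ((s ^ D) * (s ^ D) * (Fintype.card (MonoMap n s) * Fintype.card (MonoMap n s))) := by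
        rw [Fintype.card_prod, Fintype.card_prod, Fintype.card_prod, Fintype.card_prod,
          Fintype.card_prod, Fintype.card_fin, Fintype.card_fin]
      _ ≤ _ := by
        apply Nat.mul_le_mul_left
        apply Nat.mul_le_mul_left
        exact Nat.mul_le_mul (card_monoMap n s) (card_monoMap n s)
  obtain ⟨ω, hω1, hω2, hω3⟩ := exists_blobs (T := T) n M R0 K test π (by
      rintro ⟨t, ht⟩
      obtain ⟨hz, hz', ht1, ht2, hf1, hf2⟩ := ht
      have hk : t.1.1.val + t.1.2.val ≤ 2 * D - 2 := by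
        have h1 := t.1.1.isLt
        have h2 := t.1.2.isLt
        omega
      refine (hπ _ hk).trans ?_
      have hG2 := (hGm t.1.1.val t.1.2.val t.1.1.isLt t.1.2.isLt).2
      refine (Pr_goodFull hn s t.2.2.1.1 t.2.2.2.1 t.2.1.1.val t.2.1.2.val t.1.1.val t.1.2.val
        hz hz' (G t.1.1.val t.1.2.val) (ρ (t.1.1.val + t.1.2.val)) (Z (t.1.1.val + t.1.2.val))
        (θ (t.1.1.val + t.1.2.val + 1)) (θ (t.1.1.val + t.1.2.val)) hG2 hf1 hf2 ht1 ht2
        (hθ2 _ hk) (hinj _ hk)).trans (le_of_eq ?_)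
      exact (Pr_prod_marginal (Fin.castLE_injective (hR _)) (Fin.castLE_injective (hR _))
        (GoodFull s t.2.2.1.1 t.2.2.2.1 t.2.1.1.val t.2.1.2.val
          (G t.1.1.val t.1.2.val) (ρ (t.1.1.val + t.1.2.val)))).symm)
    (by
      refine le_trans ?_ htests
      apply mul_le_mul_of_nonneg_right
      · exact_mod_cast hcard
      · have : (0 : ℝ) ≤ 1 - π := by linarith
        positivity) hdeg
  have hdegree : ∀ (a b : Fin M → Fin R0 → Fin n)
      (_ : ∀ i, (univ.filter fun x : Fin M × Fin R0 => a x.1 x.2 = i).card < K) (i : Fin n),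
      {j | ∃ κ u u', a κ u = i ∧ b κ u' = j}.ncard ≤ K * R0 := by
    intro a b hab i
    have hsub : {j | ∃ κ u u', a κ u = i ∧ b κ u' = j} ⊆
        (((univ.filter fun x : Fin M × Fin R0 => a x.1 x.2 = i) ×ˢ (univ : Finset (Fin R0))).image
          (fun y => b y.1.1 y.2) : Finset (Fin n)) := by
      rintro j ⟨κ, u, u', h1, h2⟩
      rw [Finset.mem_coe, Finset.mem_image]
      refine ⟨((κ, u), u'), ?_, h2⟩
      rw [Finset.mem_product, Finset.mem_filter]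
      exact ⟨⟨mem_univ _, h1⟩, mem_univ _⟩
    calc {j | ∃ κ u u', a κ u = i ∧ b κ u' = j}.ncard
        ≤ (((univ.filter fun x : Fin M × Fin R0 => a x.1 x.2 = i) ×ˢ
            (univ : Finset (Fin R0))).image (fun y => b y.1.1 y.2)).card := by
          rw [← Set.ncard_coe_finset]
          exact Set.ncard_le_ncard hsub (Set.toFinite _)
      _ ≤ ((univ.filter fun x : Fin M × Fin R0 => a x.1 x.2 = i) ×ˢ
            (univ : Finset (Fin R0))).card := Finset.card_image_le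
      _ = (univ.filter fun x : Fin M × Fin R0 => a x.1 x.2 = i).card * R0 := by
          rw [Finset.card_product, Finset.card_univ, Fintype.card_fin]
      _ ≤ K * R0 := Nat.mul_le_mul_right _ (hab i).le
  have hR1 : 1 ≤ R0 := by
    have := hR 0
    have := hρ 0
    omega
  refine ⟨fun i j => ∃ κ u u', (ω κ).1 u = i ∧ (ω κ).2 u' = j, ?_, ?_, ?_, ?_⟩
  · exact fun i => hdegree (fun κ => (ω κ).1) (fun κ => (ω κ).2) hω2 i
  · intro j
    have := hdegree (fun κ => (ω κ).2) (fun κ => (ω κ).1) hω3 j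
    refine le_trans (le_of_eq ?_) this
    congr 1
    ext i
    constructor
    · rintro ⟨κ, u, u', h1, h2⟩
      exact ⟨κ, u', u, h2, h1⟩
    · rintro ⟨κ, u, u', h1, h2⟩
      exact ⟨κ, u', u, h2, h1⟩
  · exact ⟨_, _, ⟨0, by omega⟩, ⟨0, by omega⟩, ⟨0, by omega⟩, rfl, rfl⟩
  · refine ⟨fun x y => decide (FF G s D x y = 1), ?_⟩
    intro φ ψ hφ hψ hφ' hψ' b
    by_contra hcon
    push Not at hcon
    obtain ⟨l, l', z, z', hl, hl', hz, hz', hc1, hc2, hc3, hc4⟩ := exists_type s D hD φ ψ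
      hφ.injective hψ.injective hφ' hψ' θ hθ h0 hlast
    have hzD : z < s ^ D := hz.trans_le (Nat.pow_le_pow_right hs hl.le)
    have hzD' : z' < s ^ D := hz'.trans_le (Nat.pow_le_pow_right hs hl'.le)
    let t0 : TI n s D := ((⟨l, hl⟩, ⟨l', hl'⟩), (⟨z, hzD⟩, ⟨z', hzD'⟩),
      (⟨coarse s D φ l z, coarse_mono s D φ hφ.monotone l z⟩,
        ⟨coarse s D ψ l' z', coarse_mono s D ψ hψ.monotone l' z'⟩))
    have hvalid : Valid θ t0 := by
      refine ⟨hz, hz', ?_, ?_, ?_, ?_⟩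
      · refine hc1.trans (le_of_eq ?_)
        unfold cnt
        congr 1
        ext i
        simp only [mem_filter, mem_univ, true_and]
        exact (coarse_dom s D hs φ l z hl i).symm
      · refine hc2.trans (le_of_eq ?_)
        unfold cnt
        congr 1
        ext i
        simp only [mem_filter, mem_univ, true_and]
        exact (coarse_dom s D hs ψ l' z' hl' i).symm
      · intro v h1 h2
        exact (coarse_fiber s D φ l z v h1 h2).trans (hc3 _).le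
      · intro v h1 h2
        exact (coarse_fiber s D ψ l' z' v h1 h2).trans (hc4 _).le
    obtain ⟨κ, hκ⟩ := hω1 ⟨t0, hvalid⟩
    obtain ⟨g1, g2, g3, g4, g5⟩ := hκ
    -- coordinates
    let x : Fin (2 * ρ (l + l')) → Fin n := (ω κ).1 ∘ Fin.castLE (hR _)
    let y : Fin (2 * ρ (l + l')) → Fin n := (ω κ).2 ∘ Fin.castLE (hR _)
    have g1' : ∀ i, 1 ≤ (coarse s D φ l z (x i)).val ∧ (coarse s D φ l z (x i)).val ≤ s := g1
    have g2' : ∀ i, 1 ≤ (coarse s D ψ l' z' (y i)).val ∧ (coarse s D ψ l' z' (y i)).val ≤ s := g2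
    have g3' : Function.Injective fun i => coarse s D φ l z (x i) := g3
    have g4' : Function.Injective fun i => coarse s D ψ l' z' (y i) := g4
    have g5' : ∀ i j, G l l' (s * z + ((coarse s D φ l z (x i)).val - 1))
        (s * z' + ((coarse s D ψ l' z' (y j)).val - 1)) =
          decide (i.val < ρ (l + l') ∧ j.val < ρ (l + l')) := g5
    have hk : l + l' ≤ 2 * D - 2 := by omega
    refine core_contradiction G s D l l' (ρ (l + l')) (τ (l + l' + 1)) R0 hl hl' (hρ _) (hR _)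
      (fun i => φ (x i)) (fun j => ψ (y j)) (fun i => hφ' _) (fun j => hψ' _) ?_ ?_ ?_ ?_ ?_ ?_ ?_
      (if b then 1 else 0) ?_
    · intro i j
      rw [(coarse_dom s D hs φ l z hl (x i)).1 (g1' i), (coarse_dom s D hs φ l z hl (x j)).1 (g1' j)]
    · intro i j
      rw [(coarse_dom s D hs ψ l' z' hl' (y i)).1 (g2' i),
        (coarse_dom s D hs ψ l' z' hl' (y j)).1 (g2' j)]
    · intro i j hij
      apply g3'
      apply Fin.ext
      have h1 := coarse_val s D φ l z (x i) (g1' i)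
      have h2 := coarse_val s D φ l z (x j) (g1' j)
      have h3 := (g1' i).1
      have h4 := (g1' j).1
      simp only at hij ⊢
      omega
    · intro i j hij
      apply g4'
      apply Fin.ext
      have h1 := coarse_val s D ψ l' z' (y i) (g2' i)
      have h2 := coarse_val s D ψ l' z' (y j) (g2' j)
      have h3 := (g2' i).1
      have h4 := (g2' j).1
      simp only at hij ⊢
      omega
    · intro i j
      rw [← g5' i j, coarse_val s D φ l z (x i) (g1' i), coarse_val s D ψ l' z' (y j) (g2' j)]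
    · intro q q' h1 h2 h3 h4 hne
      have hqq : l + l' + 1 ≤ q + q' := by
        by_contra hc
        have : q = l ∧ q' = l' := by omega
        exact hne (Prod.ext this.1 this.2)
      have hs1 := (hGm q q' h2 h4).1 (by omega)
      intro r hr1 hr2 u v hu hv hA hB
      refine (hs1 r hr1 hr2 u v hu hv hA hB).trans_le ?_
      exact Nat.mul_le_mul_right _ (hτanti _ _ (by omega) hqq)
    · intro h
      exact hcond _ h
    · intro i j
      have h1 := hcon (x i) (y j) ⟨κ, Fin.castLE (hR _) i, Fin.castLE (hR _) j, rfl, rfl⟩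
      have h2 : ∀ a : ZMod 2, a = if decide (a = 1) then 1 else 0 := by decide
      have h3 := h2 (FF G s D (φ (x i)) (ψ (y j)))
      rw [h1] at h3
      exact h3

end Pool.Agent.Hhelper46.OR
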