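import Pool.Agent.Hhelper46.OR.Good

/-! A random family of blobs passes all tests and has bounded multiplicity. -/

namespace Pool.Agent.Hhelper46.OR

open Finset

/-- the value space of one blob: `R0` vertices on each side -/
abbrev BV (n R0 : ℕ) := (Fin R0 → Fin n) × (Fin R0 → Fin n)

theorem Pr_mult (n M R0 K : ℕ) [NeZero n] :
    Pr (fun h : Fin M × Fin R0 → Fin n => ∃ i, K ≤ (univ.filter fun x => h x = i).card) ≤
      (n : ℝ) * ((M : ℝ) * R0) ^ K / (n : ℝ) ^ K := by
  classical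
  have h1 : Pr (fun h : Fin M × Fin R0 → Fin n => ∃ i, K ≤ (univ.filter fun x => h x = i).card) ≤
      Pr (fun h : Fin M × Fin R0 → Fin n => ∃ w : Fin n × (Fin K → Fin M × Fin R0),
        Function.Injective w.2 ∧ ∀ j, h (w.2 j) = w.1) := by
    apply Pr_mono
    rintro h ⟨i, hi⟩
    obtain ⟨S, hS⟩ : ∃ S : Finset (Fin M × Fin R0), S = univ.filter fun x => h x = i := ⟨_, rfl⟩
    rw [← hS] at hi
    have : Fintype.card (Fin K) ≤ Fintype.card S := by
      rw [Fintype.card_fin, Fintype.card_coe]; exact hi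
    obtain ⟨σ⟩ := Function.Embedding.nonempty_of_card_le this
    refine ⟨(i, fun j => (σ j).1), ?_, ?_⟩
    · intro a b hab
      exact σ.injective (Subtype.ext hab)
    · intro j
      have h3 : ∀ x ∈ S, h x = i := by
        intro x hx
        rw [hS, Finset.mem_filter] at hx
        exact hx.2
      exact h3 _ (σ j).2
  refine h1.trans ?_
  refine (Pr_exists_le_card _ (1 / (n : ℝ) ^ K) ?_).trans (le_of_eq ?_)
  · rintro ⟨i, σ⟩
    by_cases hσ : Function.Injective σ
    · refine (Pr_mono (q := fun h => (h ∘ σ) = fun _ => i) ?_).trans ?_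
      · rintro h ⟨_, h2⟩
        funext j
        exact h2 j
      · rw [Pr_marginal hσ (fun h => h = fun _ => i), Pr_eq_singleton, Fintype.card_fun,
          Fintype.card_fin, Fintype.card_fin]
        push_cast
        exact le_rfl
    · have : Pr (fun h : Fin M × Fin R0 → Fin n => Function.Injective (i, σ).2 ∧
          ∀ j, h ((i, σ).2 j) = (i, σ).1) = 0 := by
        unfold Pr
        simp [hσ]
      rw [this]; positivity
  · rw [Fintype.card_prod, Fintype.card_fun, Fintype.card_prod, Fintype.card_fin,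
      Fintype.card_fin, Fintype.card_fin, Fintype.card_fin]
    push_cast
    ring

theorem exists_blobs {T : Type} [Fintype T] (n M R0 K : ℕ) [NeZero n] (test : T → BV n R0 → Prop)
    (π : ℝ) (hπ : ∀ t, π ≤ Pr (test t))
    (h1 : (Fintype.card T : ℝ) * (1 - π) ^ M ≤ 1 / 4)
    (h2 : (n : ℝ) * ((M : ℝ) * R0) ^ K / (n : ℝ) ^ K ≤ 1 / 4) :
    ∃ ω : Fin M → BV n R0, (∀ t, ∃ κ, test t (ω κ)) ∧
      (∀ i, (univ.filter fun x : Fin M × Fin R0 => (ω x.1).1 x.2 = i).card < K) ∧
      (∀ i, (univ.filter fun x : Fin M × Fin R0 => (ω x.1).2 x.2 = i).card < K) := by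
  classical
  have hfail : Pr (fun ω : Fin M → BV n R0 => (∃ t, ∀ κ, ¬ test t (ω κ)) ∨
      ((∃ i, K ≤ (univ.filter fun x : Fin M × Fin R0 => (ω x.1).1 x.2 = i).card) ∨
      (∃ i, K ≤ (univ.filter fun x : Fin M × Fin R0 => (ω x.1).2 x.2 = i).card))) < 1 := by
    refine lt_of_le_of_lt ((Pr_or_le _ _).trans (add_le_add le_rfl (Pr_or_le _ _))) ?_
    have hA : Pr (fun ω : Fin M → BV n R0 => ∃ t, ∀ κ, ¬ test t (ω κ)) ≤ 1 / 4 := by
      refine (Pr_exists_le_card _ ((1 - π) ^ M) ?_).trans h1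
      intro t
      rw [Pr_forall (fun w => ¬ test t w), Pr_not, Fintype.card_fin]
      apply pow_le_pow_left₀
      · have := Pr_le_one (test t)
        linarith
      · have := hπ t
        linarith
    let e : (Fin M → BV n R0) ≃ (Fin M × Fin R0 → Fin n) × (Fin M × Fin R0 → Fin n) :=
      (Equiv.arrowProdEquivProdArrow (Fin M) (fun _ => Fin R0 → Fin n)
        (fun _ => Fin R0 → Fin n)).trans
        (Equiv.prodCongr (Equiv.curry (Fin M) (Fin R0) (Fin n)).symm
          (Equiv.curry (Fin M) (Fin R0) (Fin n)).symm)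
    have hB : Pr (fun ω : Fin M → BV n R0 =>
        ∃ i, K ≤ (univ.filter fun x : Fin M × Fin R0 => (ω x.1).1 x.2 = i).card) ≤ 1 / 4 := by
      refine le_trans (le_of_eq ?_) ((Pr_mult n M R0 K).trans h2)
      rw [← Pr_fst (Ω' := (Fin M × Fin R0 → Fin n))
        (fun h : Fin M × Fin R0 → Fin n => ∃ i, K ≤ (univ.filter fun x => h x = i).card)]
      rw [← Pr_equiv e]
      rfl
    have hC : Pr (fun ω : Fin M → BV n R0 =>
        ∃ i, K ≤ (univ.filter fun x : Fin M × Fin R0 => (ω x.1).2 x.2 = i).card) ≤ 1 / 4 := by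
      refine le_trans (le_of_eq ?_) ((Pr_mult n M R0 K).trans h2)
      rw [← Pr_snd (Ω' := (Fin M × Fin R0 → Fin n))
        (fun h : Fin M × Fin R0 → Fin n => ∃ i, K ≤ (univ.filter fun x => h x = i).card)]
      rw [← Pr_equiv e]
      rfl
    linarith
  obtain ⟨ω, hω⟩ := exists_of_Pr_lt_one hfail
  push Not at hω
  exact ⟨ω, hω.1, hω.2.1, hω.2.2⟩

end Pool.Agent.Hhelper46.OR
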