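import Pool.Agent.Hhelper46.OR.Det

/-! The core contradiction and the choice of the type of an embedding. -/

namespace Pool.Agent.Hhelper46.OR

open Finset

theorem bz_true : bz true = 1 := rfl
theorem bz_false : bz false = 0 := rfl

theorem core_contradiction (G : ℕ → ℕ → ℕ → ℕ → Bool) (s D l l' ρ τ R0 : ℕ) (hl : l < D)
    (hl' : l' < D) (hρ : 1 ≤ ρ) (hR : 2 * ρ ≤ R0) (x y : Fin (2 * ρ) → ℕ)
    (hx : ∀ i, x i < s ^ D) (hy : ∀ i, y i < s ^ D)
    (hxc : ∀ i j, pre s D l (x i) = pre s D l (x j))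
    (hyc : ∀ i j, pre s D l' (y i) = pre s D l' (y j))
    (hxi : Function.Injective fun i => pre s D (l + 1) (x i))
    (hyi : Function.Injective fun i => pre s D (l' + 1) (y i))
    (hpat : ∀ i j, G l l' (pre s D (l + 1) (x i)) (pre s D (l' + 1) (y j)) =
      decide (i.val < ρ ∧ j.val < ρ))
    (hsp : ∀ q q', l ≤ q → q < D → l' ≤ q' → q' < D → (q, q') ≠ (l, l') →
      SparseN (G q q') (s ^ (q + 1)) (s ^ (q' + 1)) R0 τ)
    (hcond : l + l' < 2 * D - 2 → D ^ 2 * (τ * (2 * ρ)) ≤ ρ ^ 2)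
    (c : ZMod 2) (hc : ∀ i j, FF G s D (x i) (y j) = c) : False := by
  classical
  let i0 : Fin (2 * ρ) := ⟨0, by omega⟩
  -- the summand
  let t : ℕ × ℕ → Fin (2 * ρ) → Fin (2 * ρ) → ZMod 2 := fun p i j =>
    bz (G p.1 p.2 (pre s D (p.1 + 1) (x i)) (pre s D (p.2 + 1) (y j)))
  let P : Finset (ℕ × ℕ) := range D ×ˢ range D
  let P1 : Finset (ℕ × ℕ) := P.filter fun p => p.1 < l
  let P2 : Finset (ℕ × ℕ) := (P.filter fun p => ¬ p.1 < l).filter fun p => p.2 < l'
  let P3 : Finset (ℕ × ℕ) := (P.filter fun p => ¬ p.1 < l).filter fun p => ¬ p.2 < l'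
  let S : Finset (ℕ × ℕ) := P3.erase (l, l')
  have hmem : (l, l') ∈ P3 := by
    simp only [P3, P, mem_filter, mem_product, mem_range]
    omega
  have hFF : ∀ i j, FF G s D (x i) (y j) =
      (∑ p ∈ P1, t p i j) + ((∑ p ∈ P2, t p i j) + (t (l, l') i j + ∑ p ∈ S, t p i j)) := by
    intro i j
    have h1 : FF G s D (x i) (y j) = ∑ p ∈ P, t p i j := by
      unfold FF
      rw [Finset.sum_product]
    rw [h1, ← Finset.sum_filter_add_sum_filter_not P (fun p => p.1 < l)]
    congr 1
    rw [← Finset.sum_filter_add_sum_filter_not (P.filter fun p => ¬ p.1 < l) (fun p => p.2 < l')]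
    congr 1
    exact (Finset.add_sum_erase P3 (fun p => t p i j) hmem).symm
  have hP1 : ∀ i j, ∑ p ∈ P1, t p i j = ∑ p ∈ P1, t p i0 j := by
    intro i j
    refine Finset.sum_congr rfl fun p hp => ?_
    simp only [P1, P, mem_filter, mem_product, mem_range] at hp
    simp only [t]
    rw [pre_mono_level s D (p.1 + 1) l (x i) (x i0) (by omega) (by omega) (hxc i i0)]
  have hP2 : ∀ i j, ∑ p ∈ P2, t p i j = ∑ p ∈ P2, t p i i0 := by
    intro i j
    refine Finset.sum_congr rfl fun p hp => ?_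
    simp only [P2, P, mem_filter, mem_product, mem_range] at hp
    simp only [t]
    rw [pre_mono_level s D (p.2 + 1) l' (y j) (y i0) (by omega) (by omega) (hyc j i0)]
  have hll : ∀ i j, t (l, l') i j = if i.val < ρ ∧ j.val < ρ then 1 else 0 := by
    intro i j
    simp only [t, hpat i j, bz, decide_eq_true_eq]
  have hrect := rect_count ρ (fun i => ∑ p ∈ P2, t p i i0) (fun j => ∑ p ∈ P1, t p i0 j)
    (fun i j => ∑ p ∈ S, t p i j) c (by
      intro i j
      rw [← hc i j, hFF i j, hP1 i j, hP2 i j, hll i j]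
      ring)
  -- counting the nonzero corrections
  have hsub : (univ.filter fun w : Fin (2 * ρ) × Fin (2 * ρ) => ∑ p ∈ S, t p w.1 w.2 ≠ 0) ⊆
      S.biUnion fun p => univ.filter fun w : Fin (2 * ρ) × Fin (2 * ρ) =>
        G p.1 p.2 (pre s D (p.1 + 1) (x w.1)) (pre s D (p.2 + 1) (y w.2)) = true := by
    intro w hw
    rw [Finset.mem_filter] at hw
    obtain ⟨p, hp, hne⟩ := Finset.exists_ne_zero_of_sum_ne_zero hw.2
    rw [Finset.mem_biUnion]
    refine ⟨p, hp, ?_⟩
    rw [Finset.mem_filter]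
    refine ⟨mem_univ _, ?_⟩
    by_contra hf
    apply hne
    simp only [t]
    rw [Bool.not_eq_true] at hf
    rw [hf]
    rfl
  have hcount : ∀ p ∈ S, (univ.filter fun w : Fin (2 * ρ) × Fin (2 * ρ) =>
        G p.1 p.2 (pre s D (p.1 + 1) (x w.1)) (pre s D (p.2 + 1) (y w.2)) = true).card <
        τ * (2 * ρ) := by
    intro p hp
    simp only [S, P3, P, mem_erase, mem_filter, mem_product, mem_range] at hp
    obtain ⟨hne, ⟨⟨⟨hp1, hp2⟩, hp3⟩, hp4⟩⟩ := hp
    apply hsp p.1 p.2 (by omega) hp1 (by omega) hp2 (by simpa using hne) (2 * ρ) (by omega) hR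
      (fun i => pre s D (p.1 + 1) (x i)) (fun j => pre s D (p.2 + 1) (y j))
    · intro i j hij
      exact hxi (pre_mono_level s D (l + 1) (p.1 + 1) (x i) (x j) (by omega) (by omega) hij)
    · intro i j hij
      exact hyi (pre_mono_level s D (l' + 1) (p.2 + 1) (y i) (y j) (by omega) (by omega) hij)
    · intro i
      exact pre_lt s D (p.1 + 1) (x i) (by omega) (hx i)
    · intro i
      exact pre_lt s D (p.2 + 1) (y i) (by omega) (hy i)
  have htot := hrect.trans ((Finset.card_le_card hsub).trans Finset.card_biUnion_le)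
  rcases S.eq_empty_or_nonempty with hS | hS
  · rw [hS] at htot
    simp only [sum_empty, nonpos_iff_eq_zero] at htot
    have : 0 < ρ ^ 2 := by positivity
    omega
  · have hlt := Finset.sum_lt_sum_of_nonempty hS hcount
    rw [Finset.sum_const, smul_eq_mul] at hlt
    have hScard : S.card ≤ D ^ 2 := by
      calc S.card ≤ P3.card := Finset.card_erase_le
        _ ≤ P.card := (Finset.card_filter_le _ _).trans (Finset.card_filter_le _ _)
        _ = D ^ 2 := by
          simp only [P]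
          rw [Finset.card_product, Finset.card_range, pow_two]
    have hll' : l + l' < 2 * D - 2 := by
      obtain ⟨p, hp⟩ := hS
      simp only [S, P3, P, mem_erase, mem_filter, mem_product, mem_range] at hp
      obtain ⟨hne, ⟨⟨⟨hp1, hp2⟩, hp3⟩, hp4⟩⟩ := hp
      have : p.1 ≠ l ∨ p.2 ≠ l' := by
        by_contra hcc
        push Not at hcc
        exact hne (Prod.ext hcc.1 hcc.2)
      omega
    have h5 := hcond hll'
    have h6 : S.card * (τ * (2 * ρ)) ≤ D ^ 2 * (τ * (2 * ρ)) := Nat.mul_le_mul_right _ hScard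
    omega

/-! ### The type of an embedding -/

/-- number of vertices in the level `l` box with address `z` -/
def cnt {n : ℕ} (s D : ℕ) (φ : Fin n → ℕ) (l z : ℕ) : ℕ :=
  (univ.filter fun i => pre s D l (φ i) = z).card

theorem exists_type {n : ℕ} (s D : ℕ) (hD : 1 ≤ D) (φ ψ : Fin n → ℕ)
    (hφ : Function.Injective φ) (hψ : Function.Injective ψ) (hφ' : ∀ i, φ i < s ^ D)
    (hψ' : ∀ i, ψ i < s ^ D) (θ : ℕ → ℕ) (hθ : ∀ k, θ (k + 1) ≤ θ k) (h0 : θ 0 ≤ n)
    (hlast : 2 ≤ θ (2 * D - 1)) :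
    ∃ l l' z z', l < D ∧ l' < D ∧ z < s ^ l ∧ z' < s ^ l' ∧
      θ (l + l') ≤ cnt s D φ l z ∧ θ (l + l') ≤ cnt s D ψ l' z' ∧
      (∀ z1, cnt s D φ (l + 1) z1 < θ (l + l' + 1)) ∧
      (∀ z1, cnt s D ψ (l' + 1) z1 < θ (l + l' + 1)) := by
  classical
  have hanti : Antitone θ := antitone_nat_of_succ_le hθ
  have hn : 2 ≤ n := hlast.trans ((hanti (Nat.zero_le _)).trans h0)
  have hlt : ∀ (φ : Fin n → ℕ) (_ : ∀ i, φ i < s ^ D) (l z : ℕ) (_ : l ≤ D)
      (_ : 1 ≤ cnt s D φ l z), z < s ^ l := by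
    intro φ hφ' l z hl h
    unfold cnt at h
    obtain ⟨i, hi⟩ := Finset.card_pos.1 h
    rw [Finset.mem_filter] at hi
    rw [← hi.2]
    exact pre_lt s D l _ hl (hφ' i)
  have hbot : ∀ (φ : Fin n → ℕ) (_ : Function.Injective φ) (z : ℕ), cnt s D φ D z ≤ 1 := by
    intro φ hφ z
    unfold cnt
    rw [Finset.card_le_one]
    intro a ha b hb
    rw [Finset.mem_filter, pre_self] at ha hb
    exact hφ (ha.2.trans hb.2.symm)
  by_contra hcon
  push Not at hcon
  have key : ∀ k, k ≤ 2 * D - 1 → ∃ l l' z z', l + l' = k ∧ l < D ∧ l' < D ∧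
      θ k ≤ cnt s D φ l z ∧ θ k ≤ cnt s D ψ l' z' := by
    intro k
    induction k with
    | zero =>
      intro _
      refine ⟨0, 0, 0, 0, rfl, hD, hD, ?_, ?_⟩
      · have : cnt s D φ 0 0 = n := by
          unfold cnt
          rw [Finset.filter_true_of_mem (fun i _ => pre_zero s D _ (hφ' i))]
          simp
        rw [this]; exact h0
      · have : cnt s D ψ 0 0 = n := by
          unfold cnt
          rw [Finset.filter_true_of_mem (fun i _ => pre_zero s D _ (hψ' i))]
          simp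
        rw [this]; exact h0
    | succ k ih =>
      intro hk
      obtain ⟨l, l', z, z', hll, hl, hl', h1, h2⟩ := ih (by omega)
      subst hll
      have hθ2 : 2 ≤ θ (l + l' + 1) := hlast.trans (hanti (by omega))
      have hz : z < s ^ l := hlt φ hφ' l z hl.le (by
        have := hθ (l + l'); omega)
      have hz' : z' < s ^ l' := hlt ψ hψ' l' z' hl'.le (by
        have := hθ (l + l'); omega)
      by_cases hA : ∀ z1, cnt s D φ (l + 1) z1 < θ (l + l' + 1)
      · obtain ⟨z1, hz1⟩ := hcon l l' z z' hl hl' hz hz' h1 h2 hA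
        refine ⟨l, l' + 1, z, z1, by omega, hl, ?_, ?_, hz1⟩
        · by_contra hc
          have : l' + 1 = D := by omega
          rw [this] at hz1
          have := hbot ψ hψ z1
          omega
        · exact (hθ _).trans h1
      · push Not at hA
        obtain ⟨z1, hz1⟩ := hA
        refine ⟨l + 1, l', z1, z', by omega, ?_, hl', hz1, ?_⟩
        · by_contra hc
          have : l + 1 = D := by omega
          rw [this] at hz1
          have := hbot φ hφ z1
          omega
        · exact (hθ _).trans h2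
  obtain ⟨l, l', z, z', h1, h2, h3, _, _⟩ := key (2 * D - 1) le_rfl
  omega

end Pool.Agent.Hhelper46.OR
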