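import Pool.Agent.Hhelper46.OR.Blob

/-! The deterministic part: level-wise colourings, types of embeddings. -/

namespace Pool.Agent.Hhelper46.OR

open Finset

/-! ### Rectangles -/

/-- A matrix over `ZMod 2` which differs from a sum of a row and a column function by the pattern
must be corrected in many places. -/
theorem rect_count (ρ : ℕ) (A B : Fin (2 * ρ) → ZMod 2) (d : Fin (2 * ρ) → Fin (2 * ρ) → ZMod 2)
    (c : ZMod 2)
    (h : ∀ i j, A i + B j + (if i.val < ρ ∧ j.val < ρ then 1 else 0) + d i j = c) :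
    ρ ^ 2 ≤ (univ.filter fun x : Fin (2 * ρ) × Fin (2 * ρ) => d x.1 x.2 ≠ 0).card := by
  classical
  have key : ∀ x : Fin ρ × Fin ρ, ∃ y : Fin (2 * ρ) × Fin (2 * ρ), d y.1 y.2 ≠ 0 ∧
      y.1.val % ρ = x.1.val ∧ y.2.val % ρ = x.2.val := by
    rintro ⟨i, j⟩
    by_contra hc
    push Not at hc
    have hi := i.isLt
    have hj := j.isLt
    let i0 : Fin (2 * ρ) := ⟨i.val, by omega⟩
    let i1 : Fin (2 * ρ) := ⟨i.val + ρ, by omega⟩
    let j0 : Fin (2 * ρ) := ⟨j.val, by omega⟩
    let j1 : Fin (2 * ρ) := ⟨j.val + ρ, by omega⟩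
    have mi0 : i0.val % ρ = i.val := Nat.mod_eq_of_lt hi
    have mj0 : j0.val % ρ = j.val := Nat.mod_eq_of_lt hj
    have mi1 : i1.val % ρ = i.val := by
      simp only [i1, Nat.add_mod_right]; exact Nat.mod_eq_of_lt hi
    have mj1 : j1.val % ρ = j.val := by
      simp only [j1, Nat.add_mod_right]; exact Nat.mod_eq_of_lt hj
    have z00 : d i0 j0 = 0 := by
      by_contra hne
      exact hc (i0, j0) hne mi0 mj0
    have z01 : d i0 j1 = 0 := by
      by_contra hne
      exact hc (i0, j1) hne mi0 mj1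
    have z10 : d i1 j0 = 0 := by
      by_contra hne
      exact hc (i1, j0) hne mi1 mj0
    have z11 : d i1 j1 = 0 := by
      by_contra hne
      exact hc (i1, j1) hne mi1 mj1
    have e00 := h i0 j0
    have e01 := h i0 j1
    have e10 := h i1 j0
    have e11 := h i1 j1
    have c00 : (i0.val < ρ ∧ j0.val < ρ) := ⟨hi, hj⟩
    have c01 : ¬ (i0.val < ρ ∧ j1.val < ρ) := by simp [j1]
    have c10 : ¬ (i1.val < ρ ∧ j0.val < ρ) := by simp [i1]
    have c11 : ¬ (i1.val < ρ ∧ j1.val < ρ) := by simp [i1]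
    rw [if_pos c00, z00] at e00
    rw [if_neg c01, z01] at e01
    rw [if_neg c10, z10] at e10
    rw [if_neg c11, z11] at e11
    have : (1 : ZMod 2) = 0 := by
      have h1 : (1 : ZMod 2) = (A i0 + B j0 + 1 + 0) + (A i0 + B j1 + 0 + 0) +
          (A i1 + B j0 + 0 + 0) + (A i1 + B j1 + 0 + 0) -
            (2 : ZMod 2) * (A i0 + A i1 + B j0 + B j1) := by ring
      rw [e00, e01, e10, e11] at h1
      have h2 : (2 : ZMod 2) = 0 := by decide
      rw [h2] at h1
      rw [h1]
      have h3 : c + c + c + c - 0 * (A i0 + A i1 + B j0 + B j1) = (2 : ZMod 2) * (2 * c) := by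
        ring
      rw [h3, h2]
      ring
    exact absurd this (by decide)
  choose Φ hΦ using key
  have hinj : Function.Injective Φ := by
    intro x y hxy
    have h1 := (hΦ x).2
    have h2 := (hΦ y).2
    rw [hxy] at h1
    apply Prod.ext
    · exact Fin.ext (h1.1.symm.trans h2.1)
    · exact Fin.ext (h1.2.symm.trans h2.2)
  calc ρ ^ 2 = (univ : Finset (Fin ρ × Fin ρ)).card := by
        rw [Finset.card_univ, Fintype.card_prod, Fintype.card_fin, pow_two]
    _ = (univ.image Φ).card := (Finset.card_image_of_injective _ hinj).symm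
    _ ≤ _ := by
        apply Finset.card_le_card
        intro y hy
        rw [Finset.mem_image] at hy
        obtain ⟨x, _, rfl⟩ := hy
        rw [Finset.mem_filter]
        exact ⟨mem_univ _, (hΦ x).1⟩

/-! ### Digits -/

/-- the address of the level `l` box of `x`. -/
def pre (s D l x : ℕ) : ℕ := x / s ^ (D - l)

theorem pre_succ_div (s D l x : ℕ) (hl : l < D) : pre s D (l + 1) x / s = pre s D l x := by
  unfold pre
  rw [Nat.div_div_eq_div_mul, ← pow_succ]
  congr 2
  omega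

theorem pre_mono_level (s D l l' x y : ℕ) (hl : l ≤ l') (hl' : l' ≤ D)
    (h : pre s D l' x = pre s D l' y) : pre s D l x = pre s D l y := by
  induction l', hl using Nat.le_induction with
  | base => exact h
  | succ m hm ih =>
    apply ih (by omega)
    rw [← pre_succ_div s D m x (by omega), ← pre_succ_div s D m y (by omega), h]

theorem pre_lt (s D l x : ℕ) (hl : l ≤ D) (hx : x < s ^ D) : pre s D l x < s ^ l := by
  unfold pre
  apply Nat.div_lt_of_lt_mul
  rw [← pow_add]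
  rwa [Nat.sub_add_cancel hl]

theorem pre_zero (s D x : ℕ) (hx : x < s ^ D) : pre s D 0 x = 0 := by
  unfold pre
  exact Nat.div_eq_of_lt (by simpa using hx)

theorem pre_self (s D x : ℕ) : pre s D D x = x := by
  unfold pre
  simp

theorem pre_monotone (s D l : ℕ) {x y : ℕ} (h : x ≤ y) : pre s D l x ≤ pre s D l y := by
  unfold pre
  exact Nat.div_le_div_right h

/-! ### Level-wise colouring -/

/-- `ZMod 2`-valued indicator -/
def bz (b : Bool) : ZMod 2 := if b then 1 else 0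

/-- the level-wise XOR colouring, `ZMod 2`-valued -/
def FF (G : ℕ → ℕ → ℕ → ℕ → Bool) (s D x y : ℕ) : ZMod 2 :=
  ∑ q ∈ range D, ∑ q' ∈ range D, bz (G q q' (pre s D (q + 1) x) (pre s D (q' + 1) y))

/-- local sparsity, `ℕ`-indexed version -/
def SparseN (g : ℕ → ℕ → Bool) (A B R0 τ : ℕ) : Prop :=
  ∀ r : ℕ, 1 ≤ r → r ≤ R0 → ∀ (u v : Fin r → ℕ), Function.Injective u →
    Function.Injective v → (∀ i, u i < A) → (∀ i, v i < B) →
    ((univ : Finset (Fin r × Fin r)).filter fun x => g (u x.1) (v x.2) = true).card < τ * r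

/-- unavoidable pattern, `ℕ`-indexed version -/
def HasPatN (g : ℕ → ℕ → Bool) (A B ρ Z : ℕ) : Prop :=
  ∀ (u v : Fin Z × Fin (2 * ρ) → ℕ), Function.Injective u →
    Function.Injective v → (∀ i, u i < A) → (∀ i, v i < B) → ∃ p p' : Fin Z,
      ∀ i j : Fin (2 * ρ), g (u (p, i)) (v (p', j)) = decide (i.val < ρ ∧ j.val < ρ)

theorem exists_matrixN (A B V P : ℕ) (hP : 2 ≤ P) (hX : A ≤ V) (hY : B ≤ V)
    (ρ Z R0 τ : ℕ)
    (hF : ∑ r ∈ Finset.Icc 1 R0, (V : ℝ) ^ (2 * r) * ((2 : ℝ) ^ (r ^ 2) / (P : ℝ) ^ (τ * r)) ≤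
      1 / 4)
    (hG : (V : ℝ) ^ (2 * (Z * (2 * ρ))) * (1 - 1 / (P : ℝ) ^ ((2 * ρ) ^ 2)) ^ (Z ^ 2) ≤ 1 / 4) :
    ∃ g : ℕ → ℕ → Bool, SparseN g A B R0 τ ∧ HasPatN g A B ρ Z := by
  obtain ⟨g, hg1, hg2⟩ := exists_matrix (X := Fin A) (Y := Fin B) V P hP
    (by rw [Fintype.card_fin]; exact hX) (by rw [Fintype.card_fin]; exact hY) ρ Z R0 τ hF hG
  refine ⟨fun a b => if h : a < A ∧ b < B then g ⟨a, h.1⟩ ⟨b, h.2⟩ else false, ?_, ?_⟩
  · intro r h1 h2 u v hu hv hA hB
    have := hg1 r h1 h2 (fun i => ⟨u i, hA i⟩) (fun i => ⟨v i, hB i⟩)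
      (fun i j hij => hu (by simpa using hij)) (fun i j hij => hv (by simpa using hij))
    simpa only [hA, hB, and_self, dif_pos] using this
  · intro u v hu hv hA hB
    obtain ⟨p, p', hp⟩ := hg2 (fun i => ⟨u i, hA i⟩) (fun i => ⟨v i, hB i⟩)
      (fun i j hij => hu (by simpa using hij)) (fun i j hij => hv (by simpa using hij))
    refine ⟨p, p', fun i j => ?_⟩
    simpa only [hA, hB, and_self, dif_pos] using hp i j

end Pool.Agent.Hhelper46.OR
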