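import Pool.Agent.Hhelper46.OR.Asym

/-! From the bipartite statement to ordered graphs, and the dependence on the degree. -/

namespace Pool.Agent.Hhelper46.OR

open Finset

/-- the degree bound for depth `D` -/
def degBound (D : ℕ) : ℕ := (2 * pS D + 1) * (2 * pA D)

theorem ordered_exists (C : ℕ) : ∃ n0 : ℕ, ∀ n, n0 ≤ n → ∃ G : SimpleGraph (Fin n),
    (∀ v, (G.neighborSet v).ncard ≤ degBound (2 * C + 2)) ∧ (∃ u v, G.Adj u v) ∧
    (∃ k : ℕ, ∀ u v, G.Adj u v → (u.val < k ↔ k ≤ v.val)) ∧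
    ∀ N : ℕ, N ≤ n ^ C → ∃ f : Fin N → Fin N → Bool, ∀ φ : Fin n → Fin N, StrictMono φ →
      ∀ b : Bool, ∃ u v, G.Adj u v ∧ u < v ∧ f (φ u) (φ v) ≠ b := by
  classical
  have hD : 1 ≤ 2 * C + 2 := by omega
  obtain ⟨m0, hm0⟩ := bip_exists (2 * C + 2) hD (exps (2 * C + 2) hD)
  obtain ⟨S, hS⟩ : ∃ S, S = pS (2 * C + 2) := ⟨_, rfl⟩
  have hE : (exps (2 * C + 2) hD).E = 2 * S := by rw [hS]; rfl
  have hSS : (exps (2 * C + 2) hD).S = S := by rw [hS]; rfl
  have hR : ((exps (2 * C + 2) hD).E + 1) * (exps (2 * C + 2) hD).R0 = degBound (2 * C + 2) := rfl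
  rw [hR] at hm0
  rw [hE, hSS] at hm0
  have hS1 : 1 ≤ S := by
    have := pS_large (2 * C + 2) hD
    omega
  refine ⟨2 * (m0 + 1) ^ (2 * S) + (2 ^ (2 * S + 1)) ^ (C + 1) + 2, ?_⟩
  intro n hn
  -- choice of m
  have hex : 2 * (m0 + 1) ^ (2 * S) ≤ n := by omega
  have hpos : ∀ a : ℕ, a ≤ a ^ (2 * S) := fun a => Nat.le_self_pow (by omega) a
  have hle : m0 + 1 ≤ n := by
    have := hpos (m0 + 1)
    omega
  obtain ⟨m, hm⟩ : ∃ m, m = Nat.findGreatest (fun m => 2 * m ^ (2 * S) ≤ n) n := ⟨_, rfl⟩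
  have hm1 : m0 + 1 ≤ m := by
    rw [hm]; exact Nat.le_findGreatest hle hex
  have hm2 : 2 * m ^ (2 * S) ≤ n := by
    rw [hm]
    exact Nat.findGreatest_spec (P := fun m => 2 * m ^ (2 * S) ≤ n) hle hex
  have hm3 : n < 2 * (m + 1) ^ (2 * S) := by
    by_contra hc
    push Not at hc
    have h1 : m + 1 ≤ n := by
      have := hpos (m + 1)
      omega
    have := Nat.le_findGreatest (P := fun m => 2 * m ^ (2 * S) ≤ n) h1 hc
    omega
  have hbig : n ^ C ≤ (m ^ S) ^ (2 * C + 2) := by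
    have h1 : n ≤ 2 ^ (2 * S + 1) * m ^ (2 * S) := by
      calc n ≤ 2 * (m + 1) ^ (2 * S) := hm3.le
        _ ≤ 2 * (2 * m) ^ (2 * S) := by
            apply Nat.mul_le_mul_left
            apply Nat.pow_le_pow_left
            omega
        _ = _ := by rw [mul_pow, pow_succ]; ring
    have h2 : n ^ (C + 1) ≤ (2 ^ (2 * S + 1)) ^ (C + 1) * (m ^ (2 * S)) ^ (C + 1) := by
      calc n ^ (C + 1) ≤ (2 ^ (2 * S + 1) * m ^ (2 * S)) ^ (C + 1) := Nat.pow_le_pow_left h1 _
        _ = _ := by rw [mul_pow]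
    have h3 : (2 ^ (2 * S + 1)) ^ (C + 1) ≤ n := by omega
    have h4 : (2 ^ (2 * S + 1)) ^ (C + 1) * n ^ C ≤
        (2 ^ (2 * S + 1)) ^ (C + 1) * (m ^ (2 * S)) ^ (C + 1) := by
      calc (2 ^ (2 * S + 1)) ^ (C + 1) * n ^ C ≤ n * n ^ C := Nat.mul_le_mul_right _ h3
        _ = n ^ (C + 1) := by ring
        _ ≤ _ := h2
    have h5 := Nat.le_of_mul_le_mul_left h4 (by positivity)
    calc n ^ C ≤ (m ^ (2 * S)) ^ (C + 1) := h5
      _ = (m ^ S) ^ (2 * C + 2) := by
        rw [← pow_mul, ← pow_mul]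
        congr 1
        ring
  obtain ⟨H, hH1, hH2, ⟨i0, j0, hij0⟩, f, hf⟩ := hm0 m (by omega)
  obtain ⟨k, hk⟩ : ∃ k, k = m ^ (2 * S) := ⟨_, rfl⟩
  subst hk
  -- the graph
  let R : Fin n → Fin n → Prop := fun u v =>
    ∃ i j, H i j ∧ u.val = i.val ∧ v.val = m ^ (2 * S) + j.val
  let G : SimpleGraph (Fin n) :=
    { Adj := fun u v => R u v ∨ R v u
      symm := ⟨fun u v h => h.symm⟩
      loopless := ⟨by
        rintro u (⟨i, j, _, h1, h2⟩ | ⟨i, j, _, h1, h2⟩)
        · have := i.isLt; omega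
        · have := i.isLt; omega⟩ }
  have hnb : ∀ v, (G.neighborSet v).ncard ≤ degBound (2 * C + 2) := by
    intro v
    by_cases hv : v.val < m ^ (2 * S)
    · have hsub : G.neighborSet v ⊆
          (fun j : Fin (m ^ (2 * S)) => (⟨m ^ (2 * S) + j.val, by have := j.isLt; omega⟩ : Fin n)) ''
            {j | H ⟨v.val, hv⟩ j} := by
        intro w hw
        rw [SimpleGraph.mem_neighborSet] at hw
        rcases hw with ⟨i, j, h, h1, h2⟩ | ⟨i, j, h, h1, h2⟩
        · refine ⟨j, ?_, ?_⟩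
          · have : (⟨v.val, hv⟩ : Fin (m ^ (2 * S))) = i := Fin.ext h1
            simp only [Set.mem_setOf_eq, this]
            exact h
          · exact Fin.ext h2.symm
        · have := j.isLt; omega
      calc (G.neighborSet v).ncard ≤ _ := Set.ncard_le_ncard hsub (Set.toFinite _)
        _ ≤ {j | H ⟨v.val, hv⟩ j}.ncard := Set.ncard_image_le (Set.toFinite _)
        _ ≤ _ := hH1 _
    · by_cases hv2 : v.val < 2 * m ^ (2 * S)
      · have hsub : G.neighborSet v ⊆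
            (fun i : Fin (m ^ (2 * S)) => (⟨i.val, by have := i.isLt; omega⟩ : Fin n)) ''
              {i | H i ⟨v.val - m ^ (2 * S), by omega⟩} := by
          intro w hw
          rw [SimpleGraph.mem_neighborSet] at hw
          rcases hw with ⟨i, j, h, h1, h2⟩ | ⟨i, j, h, h1, h2⟩
          · have := i.isLt; omega
          · refine ⟨i, ?_, ?_⟩
            · have : (⟨v.val - m ^ (2 * S), by omega⟩ : Fin (m ^ (2 * S))) = j :=
                Fin.ext (by simp only; omega)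
              simp only [Set.mem_setOf_eq, this]
              exact h
            · exact Fin.ext h1.symm
        calc (G.neighborSet v).ncard ≤ _ := Set.ncard_le_ncard hsub (Set.toFinite _)
          _ ≤ {i | H i ⟨v.val - m ^ (2 * S), by omega⟩}.ncard :=
            Set.ncard_image_le (Set.toFinite _)
          _ ≤ _ := hH2 _
      · have : G.neighborSet v = ∅ := by
          ext w
          rw [SimpleGraph.mem_neighborSet]
          simp only [Set.mem_empty_iff_false, iff_false]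
          rintro (⟨i, j, h, h1, h2⟩ | ⟨i, j, h, h1, h2⟩)
          · have := i.isLt; omega
          · have := j.isLt; omega
        rw [this]
        simp
  refine ⟨G, hnb, ?_, ⟨m ^ (2 * S), ?_⟩, ?_⟩
  · exact ⟨⟨i0.val, by have := i0.isLt; omega⟩, ⟨m ^ (2 * S) + j0.val, by have := j0.isLt; omega⟩,
      Or.inl ⟨i0, j0, hij0, rfl, rfl⟩⟩
  · rintro u v (⟨i, j, h, h1, h2⟩ | ⟨i, j, h, h1, h2⟩)
    · have := i.isLt; omega
    · have := i.isLt; omega
  · intro N hN
    refine ⟨fun x y => f x.val y.val, ?_⟩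
    intro φ hφ b
    have hNb : ∀ x : Fin n, (φ x).val < (m ^ S) ^ (2 * C + 2) := by
      intro x
      have := (φ x).isLt
      omega
    obtain ⟨i, j, hij, hne⟩ := hf
      (fun i : Fin (m ^ (2 * S)) => (φ ⟨i.val, by have := i.isLt; omega⟩).val)
      (fun j : Fin (m ^ (2 * S)) => (φ ⟨m ^ (2 * S) + j.val, by have := j.isLt; omega⟩).val)
      (by
        intro a b hab
        have h1 : (⟨a.val, by have := a.isLt; omega⟩ : Fin n) < ⟨b.val, by have := b.isLt; omega⟩ :=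
          hab
        exact hφ h1)
      (by
        intro a b hab
        have h1 : (⟨m ^ (2 * S) + a.val, by have := a.isLt; omega⟩ : Fin n) <
            ⟨m ^ (2 * S) + b.val, by have := b.isLt; omega⟩ := by
          rw [Fin.mk_lt_mk]
          have : a.val < b.val := hab
          omega
        exact hφ h1)
      (fun i => hNb _) (fun j => hNb _) b
    refine ⟨⟨i.val, by have := i.isLt; omega⟩, ⟨m ^ (2 * S) + j.val, by have := j.isLt; omega⟩,
      Or.inl ⟨i, j, hij, rfl, rfl⟩, ?_, hne⟩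
    rw [Fin.mk_lt_mk]
    have := i.isLt
    omega

/-! ### Size of the degree bound -/

theorem aa_le (D : ℕ) (hD : 1 ≤ D) (j : ℕ) :
    576 * D ^ 3 * (D + 1) * aa D j ≤ (576 * D ^ 3 * (D + 1)) ^ (3 ^ j) := by
  have hL : 1 ≤ 576 * D ^ 3 * (D + 1) := by
    have : 0 < 576 * D ^ 3 * (D + 1) := by positivity
    exact this
  set L := 576 * D ^ 3 * (D + 1) with hLdef
  induction j with
  | zero => simp [aa]
  | succ j ih =>
    have h1 : aa D (j + 1) = L * (aa D j) ^ 3 := rfl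
    rw [h1]
    calc L * (L * (aa D j) ^ 3) ≤ L * (L * (L * (aa D j) ^ 3)) := by
          apply Nat.mul_le_mul_left
          exact Nat.le_mul_of_pos_left _ hL
      _ = (L * aa D j) ^ 3 := by ring
      _ ≤ (L ^ (3 ^ j)) ^ 3 := Nat.pow_le_pow_left ih 3
      _ = L ^ (3 ^ (j + 1)) := by rw [← pow_mul, pow_succ]

theorem degBound_le (D : ℕ) (hD : 1 ≤ D) :
    degBound D ≤ (576 * D ^ 3 * (D + 1)) ^ (9 ^ D) := by
  have hA := aa_le D hD (2 * D - 2)
  have hL : 1152 ≤ 576 * D ^ 3 * (D + 1) := by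
    calc 1152 = 576 * 1 ^ 3 * (1 + 1) := by norm_num
      _ ≤ 576 * D ^ 3 * (D + 1) := by gcongr
  have hDL : D ^ 2 ≤ 576 * D ^ 3 * (D + 1) := by
    calc D ^ 2 = 1 * D ^ 2 * 1 := by ring
      _ ≤ 576 * D ^ 3 * (D + 1) := by
        gcongr
        · norm_num
        · norm_num
        · omega
  set L := 576 * D ^ 3 * (D + 1) with hLdef
  have hA' : L * pA D ≤ L ^ (3 ^ (2 * D - 2)) := hA
  have hpA : 1 ≤ pA D := aa_pos D hD _
  unfold degBound pS
  calc (2 * (57600 * D ^ 2 * pA D ^ 3) + 1) * (2 * pA D)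
      ≤ (2 * (57600 * D ^ 2 * pA D ^ 3) + D ^ 2 * pA D ^ 3) * (2 * pA D) := by
        apply Nat.mul_le_mul_right
        have : 0 < D ^ 2 * pA D ^ 3 := by positivity
        omega
    _ = 230402 * D ^ 2 * pA D ^ 4 := by ring
    _ ≤ (L * L) * L * pA D ^ 4 := by
        gcongr
        nlinarith
    _ ≤ (L * L) * L * pA D ^ 4 * L := Nat.le_mul_of_pos_right _ (by omega)
    _ = (L * pA D) ^ 4 := by ring
    _ ≤ (L ^ (3 ^ (2 * D - 2))) ^ 4 := Nat.pow_le_pow_left hA' 4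
    _ = L ^ (3 ^ (2 * D - 2) * 4) := by rw [← pow_mul]
    _ ≤ L ^ (9 ^ D) := by
        apply Nat.pow_le_pow_right (by omega)
        calc 3 ^ (2 * D - 2) * 4 ≤ 3 ^ (2 * D - 2) * 3 ^ 2 := by
              apply Nat.mul_le_mul_left; norm_num
          _ = 3 ^ (2 * D) := by rw [← pow_add]; congr 1; omega
          _ = 9 ^ D := by rw [pow_mul]; norm_num

theorem two_le_exp_one : (2 : ℝ) ≤ Real.exp 1 := by
  have := Real.add_one_le_exp (1 : ℝ)
  linarith

theorem degBound_le_exp (D : ℕ) (hD : 1 ≤ D) :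
    (degBound D : ℝ) ≤ Real.exp (Real.exp (9 * D)) := by
  have h1 : (degBound D : ℝ) ≤ ((576 * D ^ 3 * (D + 1) : ℕ) : ℝ) ^ (9 ^ D) := by
    exact_mod_cast degBound_le D hD
  have hD1 : (1 : ℝ) ≤ D := by exact_mod_cast hD
  have hDe : (D : ℝ) ≤ Real.exp D := nat_le_exp D
  have h16 : (16 : ℝ) ≤ Real.exp 4 := by
    have : Real.exp 4 = Real.exp 1 ^ 4 := by rw [← Real.exp_nat_mul]; norm_num
    rw [this]
    calc (16 : ℝ) = 2 ^ 4 := by norm_num
      _ ≤ Real.exp 1 ^ 4 := pow_le_pow_left₀ (by norm_num) two_le_exp_one 4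
  have h2048 : (2048 : ℝ) ≤ Real.exp 11 := by
    have : Real.exp 11 = Real.exp 1 ^ 11 := by rw [← Real.exp_nat_mul]; norm_num
    rw [this]
    calc (2048 : ℝ) = 2 ^ 11 := by norm_num
      _ ≤ Real.exp 1 ^ 11 := pow_le_pow_left₀ (by norm_num) two_le_exp_one 11
  have h2 : ((576 * D ^ 3 * (D + 1) : ℕ) : ℝ) ≤ Real.exp (15 * D) := by
    push_cast
    calc (576 : ℝ) * D ^ 3 * (D + 1) ≤ 576 * D ^ 3 * (D + D) := by gcongr
      _ = 1152 * (D : ℝ) ^ 4 := by ring
      _ ≤ Real.exp 11 * (Real.exp D) ^ 4 := by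
          apply mul_le_mul (by linarith) (pow_le_pow_left₀ (by positivity) hDe 4) (by positivity)
            (by positivity)
      _ = Real.exp (11 + 4 * D) := by
          rw [← Real.exp_nat_mul, ← Real.exp_add]
          norm_num
      _ ≤ Real.exp (15 * D) := by
          apply Real.exp_le_exp.2
          linarith
  have h3 : ((9 : ℝ)) ^ D ≤ Real.exp (4 * D) := by
    calc (9 : ℝ) ^ D ≤ (Real.exp 4) ^ D := pow_le_pow_left₀ (by norm_num) (by linarith) D
      _ = Real.exp (4 * D) := by rw [← Real.exp_nat_mul]; ring_nf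
  calc (degBound D : ℝ) ≤ ((576 * D ^ 3 * (D + 1) : ℕ) : ℝ) ^ (9 ^ D) := h1
    _ ≤ (Real.exp (15 * D)) ^ (9 ^ D) := pow_le_pow_left₀ (by positivity) h2 _
    _ = Real.exp ((9 : ℝ) ^ D * (15 * D)) := by rw [← Real.exp_nat_mul]; push_cast; rfl
    _ ≤ Real.exp (Real.exp (4 * D) * (Real.exp 4 * Real.exp D)) := by
        apply Real.exp_le_exp.2
        apply mul_le_mul h3 _ (by positivity) (by positivity)
        apply mul_le_mul (by linarith) hDe (by positivity) (by positivity)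
    _ = Real.exp (Real.exp (4 * D + (4 + D))) := by rw [← Real.exp_add, ← Real.exp_add]
    _ ≤ Real.exp (Real.exp (9 * D)) := by
        apply Real.exp_le_exp.2
        apply Real.exp_le_exp.2
        linarith

/-- trivial lower bound -/
theorem trivial_exists (n : ℕ) (hn : 2 ≤ n) : ∃ G : SimpleGraph (Fin n),
    (∀ v, (G.neighborSet v).ncard ≤ 1) ∧ (∃ u v, G.Adj u v) ∧
    (∃ k : ℕ, ∀ u v, G.Adj u v → (u.val < k ↔ k ≤ v.val)) ∧
    ∀ N : ℕ, N < n → ∃ f : Fin N → Fin N → Bool, ∀ φ : Fin n → Fin N, StrictMono φ →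
      ∀ b : Bool, ∃ u v, G.Adj u v ∧ u < v ∧ f (φ u) (φ v) ≠ b := by
  classical
  let G : SimpleGraph (Fin n) :=
    { Adj := fun u v => (u.val = 0 ∧ v.val = 1) ∨ (u.val = 1 ∧ v.val = 0)
      symm := ⟨fun u v h => by
        rcases h with h | h
        · exact Or.inr ⟨h.2, h.1⟩
        · exact Or.inl ⟨h.2, h.1⟩⟩
      loopless := ⟨fun u h => by omega⟩ }
  refine ⟨G, ?_, ⟨⟨0, by omega⟩, ⟨1, by omega⟩, Or.inl ⟨rfl, rfl⟩⟩, ⟨1, ?_⟩, ?_⟩
  · intro v
    rw [Set.ncard_le_one (Set.toFinite _)]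
    intro a ha b hb
    rw [SimpleGraph.mem_neighborSet] at ha hb
    apply Fin.ext
    rcases ha with ha | ha <;> rcases hb with hb | hb <;> omega
  · intro u v h
    rcases h with h | h <;> omega
  · intro N hN
    refine ⟨fun _ _ => false, ?_⟩
    intro φ hφ
    have := Fintype.card_le_of_injective φ hφ.injective
    rw [Fintype.card_fin, Fintype.card_fin] at this
    omega

theorem main_loglog :
    ∃ c : ℝ, 0 < c ∧ ∀ Δ : ℕ, 1 ≤ Δ → ∃ n₀ : ℕ, ∀ n : ℕ, n₀ ≤ n →
      ∃ G : SimpleGraph (Fin n),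
        (∀ v, (G.neighborSet v).ncard ≤ Δ) ∧
        (∃ u v, G.Adj u v) ∧
        (∃ k : ℕ, ∀ u v, G.Adj u v → (u.val < k ↔ k ≤ v.val)) ∧
        ∀ N : ℕ, (N : ℝ) < (n : ℝ) ^ (c * Real.log (Real.log (Δ : ℝ))) →
          ∃ f : Fin N → Fin N → Bool, ∀ φ : Fin n → Fin N, StrictMono φ → ∀ b : Bool,
            ∃ u v, G.Adj u v ∧ u < v ∧ f (φ u) (φ v) ≠ b := by
  refine ⟨1 / 72, by norm_num, ?_⟩
  intro Δ hΔ
  set x := Real.log (Real.log (Δ : ℝ)) with hx
  by_cases hx72 : x < 72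
  · refine ⟨2, fun n hn => ?_⟩
    obtain ⟨G, h1, h2, h3, h4⟩ := trivial_exists n hn
    refine ⟨G, fun v => (h1 v).trans hΔ, h2, h3, ?_⟩
    intro N hN
    apply h4
    have hn1 : (1 : ℝ) ≤ n := by exact_mod_cast (by omega : 1 ≤ n)
    have : (n : ℝ) ^ (1 / 72 * x) ≤ (n : ℝ) ^ (1 : ℝ) :=
      Real.rpow_le_rpow_of_exponent_le hn1 (by linarith)
    rw [Real.rpow_one] at this
    exact_mod_cast hN.trans_le this
  · push Not at hx72
    -- choice of C
    obtain ⟨t, ht⟩ : ∃ t : ℕ, t = ⌊x / 18⌋₊ := ⟨_, rfl⟩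
    have ht1 : (t : ℝ) ≤ x / 18 := by
      rw [ht]; exact Nat.floor_le (by linarith)
    have ht2 : x / 18 < t + 1 := by
      rw [ht]; exact Nat.lt_floor_add_one _
    have ht3 : 4 ≤ t := by
      rw [ht]
      apply Nat.le_floor
      norm_num
      linarith
    obtain ⟨C, rfl⟩ : ∃ C, t = C + 1 := ⟨t - 1, by omega⟩
    push_cast at ht1 ht2
    obtain ⟨n0, hn0⟩ := ordered_exists C
    refine ⟨n0 + 1, fun n hn => ?_⟩
    obtain ⟨G, h1, h2, h3, h4⟩ := hn0 n (by omega)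
    have hlogpos : 0 < Real.log (Δ : ℝ) := by
      by_contra hc
      push Not at hc
      have h5 : Real.log (Real.log (Δ : ℝ)) ≤ 72 / 2 := by
        rcases eq_or_lt_of_le hc with h0 | h0
        · rw [h0, Real.log_zero]; norm_num
        · have h6 : 0 ≤ Real.log (Δ : ℝ) := Real.log_natCast_nonneg _
          linarith
      rw [← hx] at h5
      linarith
    have hdeg : degBound (2 * C + 2) ≤ Δ := by
      have h5 := degBound_le_exp (2 * C + 2) (by omega)
      have h6 : Real.exp (Real.exp (9 * ((2 * C + 2 : ℕ) : ℝ))) ≤ (Δ : ℝ) := by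
        have h7 : (9 * ((2 * C + 2 : ℕ) : ℝ)) ≤ x := by
          push_cast
          linarith
        have hΔ0 : (0 : ℝ) < Δ := by exact_mod_cast hΔ
        calc Real.exp (Real.exp (9 * ((2 * C + 2 : ℕ) : ℝ))) ≤ Real.exp (Real.exp x) :=
              Real.exp_le_exp.2 (Real.exp_le_exp.2 h7)
          _ = Real.exp (Real.log (Δ : ℝ)) := by rw [hx, Real.exp_log hlogpos]
          _ = (Δ : ℝ) := Real.exp_log hΔ0
      exact_mod_cast h5.trans h6
    refine ⟨G, fun v => (h1 v).trans hdeg, h2, h3, ?_⟩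
    intro N hN
    apply h4
    have hn1 : (1 : ℝ) ≤ n := by exact_mod_cast (by omega : 1 ≤ n)
    have h8 : (n : ℝ) ^ (1 / 72 * x) ≤ (n : ℝ) ^ (C : ℝ) :=
      Real.rpow_le_rpow_of_exponent_le hn1 (by linarith)
    rw [Real.rpow_natCast] at h8
    have h9 : (N : ℝ) < ((n ^ C : ℕ) : ℝ) := by
      push_cast
      exact hN.trans_le h8
    exact (by exact_mod_cast h9 : N < n ^ C).le

end Pool.Agent.Hhelper46.OR
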