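import Pool.Agent.Hhelper46.OR.Mat

/-! A positive proportion of random tuples carries the pattern. -/

namespace Pool.Agent.Hhelper46.OR

open Finset

theorem Pr_prod_eq {Ω Ω' : Type*} [Fintype Ω] [Fintype Ω'] (q : Ω × Ω' → Prop) :
    Pr q = (∑ y : Ω', Pr (fun a => q (a, y))) / (Fintype.card Ω' : ℝ) := by
  classical
  have key : (({x | q x} : Set (Ω × Ω')).ncard : ℝ) =
      ∑ y : Ω', (({a | q (a, y)} : Set Ω).ncard : ℝ) := by
    have h1 : ({x | q x} : Set (Ω × Ω')).ncard = ∑ x : Ω × Ω', if q x then 1 else 0 := by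
      rw [← Finset.card_filter, ← Set.ncard_coe_finset]
      congr 1
      ext x; simp
    have h2 : ∀ y : Ω', ({a | q (a, y)} : Set Ω).ncard = ∑ a : Ω, if q (a, y) then 1 else 0 := by
      intro y
      rw [← Finset.card_filter, ← Set.ncard_coe_finset]
      congr 1
      ext x; simp
    rw [h1, Fintype.sum_prod_type_right]
    push_cast
    refine Finset.sum_congr rfl fun y _ => ?_
    rw [h2]
    push_cast
    rfl
  unfold Pr
  rw [key, ← Finset.sum_div, Fintype.card_prod]
  push_cast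
  rw [div_div]

theorem Pr_prod_marginal {A B A' B' V V' : Type*} [Fintype A] [Fintype B] [Fintype V]
    [Fintype A'] [Fintype B'] [Fintype V'] [DecidableEq A] [DecidableEq B] [DecidableEq A']
    [DecidableEq B'] [Nonempty V] [Nonempty V'] {e : B → A} (he : Function.Injective e)
    {e' : B' → A'} (he' : Function.Injective e') (Q : (B → V) × (B' → V') → Prop) :
    Pr (fun x : (A → V) × (A' → V') => Q (x.1 ∘ e, x.2 ∘ e')) = Pr Q := by
  have h1 : Pr (fun x : (A → V) × (A' → V') => Q (x.1 ∘ e, x.2 ∘ e')) =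
      Pr (fun x : (B → V) × (A' → V') => Q (x.1, x.2 ∘ e')) := by
    rw [Pr_prod_eq, Pr_prod_eq]
    congr 1
    refine Finset.sum_congr rfl fun y _ => ?_
    exact Pr_marginal he (fun h => Q (h, y ∘ e'))
  rw [h1]
  have h2 : Pr (fun x : (B → V) × (A' → V') => Q (x.1, x.2 ∘ e')) =
      Pr (fun x : (A' → V') × (B → V) => Q (x.2, x.1 ∘ e')) := by
    rw [← Pr_equiv (Equiv.prodComm (B → V) (A' → V'))]
    rfl
  have h3 : Pr Q = Pr (fun x : (B' → V') × (B → V) => Q (x.2, x.1)) := by
    rw [← Pr_equiv (Equiv.prodComm (B → V) (B' → V'))]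
    rfl
  rw [h2, h3, Pr_prod_eq, Pr_prod_eq]
  congr 1
  refine Finset.sum_congr rfl fun y _ => ?_
  exact Pr_marginal he' (fun h => Q (y, h))

variable {α β X Y : Type} [Fintype α] [Fintype β] [Fintype X] [Fintype Y] [DecidableEq α]
  [DecidableEq β] [DecidableEq X] [DecidableEq Y]

theorem Pr_pair_collision [Nonempty α] (lam : α → X) (F : ℕ)
    (hF : ∀ v, (univ.filter fun a => lam a = v).card ≤ F) :
    Pr (fun x : α × α => lam x.1 = lam x.2) ≤ (F : ℝ) / (Fintype.card α : ℝ) := by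
  rw [Pr_prod_eq]
  have h0 : (0 : ℝ) < (Fintype.card α : ℝ) := by
    exact_mod_cast Fintype.card_pos
  have h1 : ∀ y : α, Pr (fun a : α => lam a = lam y) ≤ (F : ℝ) / (Fintype.card α : ℝ) := by
    intro y
    unfold Pr
    have : ({x | lam x = lam y} : Set α) = ((univ.filter fun a => lam a = lam y : Finset α) : Set α) := by
      ext x; simp
    rw [this, Set.ncard_coe_finset]
    exact div_le_div_of_nonneg_right (by exact_mod_cast hF _) h0.le
  calc (∑ y : α, Pr (fun a : α => lam a = lam y)) / (Fintype.card α : ℝ)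
      ≤ (∑ _y : α, (F : ℝ) / (Fintype.card α : ℝ)) / (Fintype.card α : ℝ) :=
        div_le_div_of_nonneg_right (Finset.sum_le_sum fun y _ => h1 y) h0.le
    _ = _ := by
      rw [Finset.sum_const, Finset.card_univ, nsmul_eq_mul]
      field_simp

theorem Pr_not_injective [Nonempty α] {ι : Type} [Fintype ι] [DecidableEq ι] (lam : α → X) (F : ℕ)
    (hF : ∀ v, (univ.filter fun a => lam a = v).card ≤ F)
    (hA : 4 * (Fintype.card ι) ^ 2 * F ≤ Fintype.card α) :
    Pr (fun x : ι → α => ¬ Function.Injective (lam ∘ x)) ≤ 1 / 4 := by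
  have h0 : (0 : ℝ) < (Fintype.card α : ℝ) := by
    exact_mod_cast Fintype.card_pos
  have h1 : Pr (fun x : ι → α => ¬ Function.Injective (lam ∘ x)) ≤
      Pr (fun x : ι → α => ∃ ij : ι × ι, ij.1 ≠ ij.2 ∧ lam (x ij.1) = lam (x ij.2)) := by
    apply Pr_mono
    intro x hx
    unfold Function.Injective at hx
    push Not at hx
    obtain ⟨i, j, hij, hne⟩ := hx
    exact ⟨(i, j), hne, hij⟩
  refine h1.trans ?_
  refine (Pr_exists_le_card _ ((F : ℝ) / (Fintype.card α : ℝ)) ?_).trans ?_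
  · rintro ⟨i, j⟩
    by_cases hij : i = j
    · have : Pr (fun x : ι → α => (i, j).1 ≠ (i, j).2 ∧ lam (x (i, j).1) = lam (x (i, j).2)) = 0 := by
        unfold Pr
        simp [hij]
      rw [this]
      positivity
    · let e : Fin 2 → ι := ![i, j]
      have he : Function.Injective e := by
        intro a b hab
        fin_cases a <;> fin_cases b <;> simp_all [e]
      have h2 : Pr (fun x : ι → α => (i, j).1 ≠ (i, j).2 ∧ lam (x (i, j).1) = lam (x (i, j).2)) =
          Pr (fun x : ι → α => lam ((x ∘ e) 0) = lam ((x ∘ e) 1)) := by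
        apply Pr_congr
        intro x
        simp [e, hij]
      rw [h2, Pr_marginal he (fun h => lam (h 0) = lam (h 1))]
      rw [← Pr_equiv (finTwoArrowEquiv α).symm]
      exact Pr_pair_collision lam F hF
  · rw [Fintype.card_prod]
    push_cast
    have hA' : (4 : ℝ) * (Fintype.card ι : ℝ) ^ 2 * F ≤ Fintype.card α := by exact_mod_cast hA
    rw [← mul_div_assoc, div_le_iff₀ h0]
    nlinarith

/-- the tuples on which `g` shows the pattern -/
def GoodTuple (lam : α → X) (lam' : β → Y) (g : X → Y → Bool) (ρ : ℕ)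
    (w : (Fin (2 * ρ) → α) × (Fin (2 * ρ) → β)) : Prop :=
  Function.Injective (lam ∘ w.1) ∧ Function.Injective (lam' ∘ w.2) ∧
    ∀ i j : Fin (2 * ρ), g (lam (w.1 i)) (lam' (w.2 j)) = decide (i.val < ρ ∧ j.val < ρ)

theorem Pr_good [Nonempty α] [Nonempty β] (lam : α → X) (lam' : β → Y) (F : ℕ)
    (hF : ∀ v, (univ.filter fun a => lam a = v).card ≤ F)
    (hF' : ∀ v, (univ.filter fun b => lam' b = v).card ≤ F)
    (g : X → Y → Bool) (ρ Z : ℕ) (hg : HasPat g ρ Z)
    (hA : 4 * (Z * (2 * ρ)) ^ 2 * F ≤ Fintype.card α)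
    (hB : 4 * (Z * (2 * ρ)) ^ 2 * F ≤ Fintype.card β) :
    1 / (2 * (Z : ℝ) ^ 2) ≤ Pr (GoodTuple lam lam' g ρ) := by
  have hcard : Fintype.card (Fin Z × Fin (2 * ρ)) = Z * (2 * ρ) := by
    rw [Fintype.card_prod, Fintype.card_fin, Fintype.card_fin]
  -- sample space
  let Ω := (Fin Z × Fin (2 * ρ) → α) × (Fin Z × Fin (2 * ρ) → β)
  have h1 : Pr (fun w : Ω => ¬ Function.Injective (lam ∘ w.1)) ≤ 1 / 4 := by
    rw [Pr_fst (fun x : Fin Z × Fin (2 * ρ) → α => ¬ Function.Injective (lam ∘ x))]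
    exact Pr_not_injective lam F hF (by rw [hcard]; exact hA)
  have h2 : Pr (fun w : Ω => ¬ Function.Injective (lam' ∘ w.2)) ≤ 1 / 4 := by
    rw [Pr_snd (fun x : Fin Z × Fin (2 * ρ) → β => ¬ Function.Injective (lam' ∘ x))]
    exact Pr_not_injective lam' F hF' (by rw [hcard]; exact hB)
  have h3 : Pr (fun w : Ω => ¬ (Function.Injective (lam ∘ w.1) ∧ Function.Injective (lam' ∘ w.2)))
      ≤ 1 / 2 := by
    refine le_trans (Pr_mono ?_) ((Pr_or_le _ _).trans (add_le_add h1 h2) |>.trans (by norm_num))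
    intro w hw
    by_cases h : Function.Injective (lam ∘ w.1)
    · right
      intro h'
      exact hw ⟨h, h'⟩
    · exact Or.inl h
  rw [Pr_not] at h3
  have h4 : Pr (fun w : Ω => Function.Injective (lam ∘ w.1) ∧ Function.Injective (lam' ∘ w.2)) ≤
      Pr (fun w : Ω => ∃ p : Fin Z × Fin Z,
        GoodTuple lam lam' g ρ (fun i => w.1 (p.1, i), fun i => w.2 (p.2, i))) := by
    apply Pr_mono
    rintro w ⟨hw1, hw2⟩
    obtain ⟨p, p', hp⟩ := hg (lam ∘ w.1) (lam' ∘ w.2) hw1 hw2
    refine ⟨(p, p'), ?_, ?_, ?_⟩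
    · intro i j hij
      have := hw1 (a₁ := (p, i)) (a₂ := (p, j)) hij
      simpa using this
    · intro i j hij
      have := hw2 (a₁ := (p', i)) (a₂ := (p', j)) hij
      simpa using this
    · intro i j
      exact hp i j
  have h5 : Pr (fun w : Ω => ∃ p : Fin Z × Fin Z,
        GoodTuple lam lam' g ρ (fun i => w.1 (p.1, i), fun i => w.2 (p.2, i))) ≤
      (Fintype.card (Fin Z × Fin Z) : ℝ) * Pr (GoodTuple lam lam' g ρ) := by
    apply Pr_exists_le_card
    rintro ⟨p, p'⟩
    have he : Function.Injective (fun i : Fin (2 * ρ) => (p, i)) := by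
      intro a b h; simpa using h
    have he' : Function.Injective (fun i : Fin (2 * ρ) => (p', i)) := by
      intro a b h; simpa using h
    exact le_of_eq (Pr_prod_marginal he he' (GoodTuple lam lam' g ρ))
  rw [Fintype.card_prod, Fintype.card_fin] at h5
  push_cast at h5
  have h6 : (1 : ℝ) / 2 ≤ (Z : ℝ) * Z * Pr (GoodTuple lam lam' g ρ) := by linarith
  have hZ : (0 : ℝ) < (Z : ℝ) ^ 2 := by
    rcases Nat.eq_zero_or_pos Z with h | h
    · subst h
      norm_num at h6
    · positivity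
  rw [div_le_iff₀ (by positivity)]
  nlinarith

end Pool.Agent.Hhelper46.OR
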