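import Pool.Agent.Hhelper46.OR.Pr

/-! Random 0/1 matrices: local sparsity and unavoidability of a fixed pattern. -/

namespace Pool.Agent.Hhelper46.OR

open Finset

variable {X Y : Type} [Fintype X] [Fintype Y] [DecidableEq X] [DecidableEq Y]

/-- every `r × r` sub-grid, `1 ≤ r ≤ R0`, has fewer than `τ r` ones. -/
def SparseUpTo (g : X → Y → Bool) (R0 τ : ℕ) : Prop :=
  ∀ r : ℕ, 1 ≤ r → r ≤ R0 → ∀ (u : Fin r → X) (v : Fin r → Y), Function.Injective u →
    Function.Injective v →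
    ((univ : Finset (Fin r × Fin r)).filter fun x => g (u x.1) (v x.2) = true).card < τ * r

/-- in every system of `Z` disjoint `2ρ`-tuples of rows and `Z` disjoint `2ρ`-tuples of columns some
pair of tuples carries the pattern which is `1` exactly on the upper left quarter. -/
def HasPat (g : X → Y → Bool) (ρ Z : ℕ) : Prop :=
  ∀ (u : Fin Z × Fin (2 * ρ) → X) (v : Fin Z × Fin (2 * ρ) → Y), Function.Injective u →
    Function.Injective v → ∃ p p' : Fin Z, ∀ i j : Fin (2 * ρ),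
      g (u (p, i)) (v (p', j)) = decide (i.val < ρ ∧ j.val < ρ)

section
variable {P : ℕ} [NeZero P]

/-- the 0/1 matrix of a matrix with entries in `Fin P` -/
def mat (g0 : X × Y → Fin P) (x : X) (y : Y) : Bool := decide (g0 (x, y) = 0)

theorem Pr_sparse_fail (r τ : ℕ) (u : Fin r → X) (v : Fin r → Y)
    (hu : Function.Injective u) (hv : Function.Injective v) :
    Pr (fun g0 : X × Y → Fin P => τ * r ≤
      ((univ : Finset (Fin r × Fin r)).filter fun x => mat g0 (u x.1) (v x.2) = true).card) ≤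
      (2 : ℝ) ^ (r ^ 2) / (P : ℝ) ^ (τ * r) := by
  classical
  -- witnesses
  have h1 : Pr (fun g0 : X × Y → Fin P => τ * r ≤
      ((univ : Finset (Fin r × Fin r)).filter fun x => mat g0 (u x.1) (v x.2) = true).card) ≤
      Pr (fun g0 : X × Y → Fin P => ∃ Q ∈ (univ : Finset (Fin r × Fin r)).powersetCard (τ * r),
        ∀ x ∈ Q, g0 (u x.1, v x.2) = 0) := by
    apply Pr_mono
    intro g0 h
    obtain ⟨Q, hQ1, hQ2⟩ := Finset.exists_subset_card_eq h
    refine ⟨Q, ?_, ?_⟩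
    · rw [Finset.mem_powersetCard]
      exact ⟨Finset.subset_univ _, hQ2⟩
    · intro x hx
      have := hQ1 hx
      rw [Finset.mem_filter] at this
      have h2 := this.2
      unfold mat at h2
      exact of_decide_eq_true h2
  refine h1.trans ?_
  refine (Pr_exists_mem_le _ _).trans ?_
  have h2 : ∀ Q ∈ (univ : Finset (Fin r × Fin r)).powersetCard (τ * r),
      Pr (fun g0 : X × Y → Fin P => ∀ x ∈ Q, g0 (u x.1, v x.2) = 0) ≤
        1 / (P : ℝ) ^ (τ * r) := by
    intro Q hQ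
    rw [Finset.mem_powersetCard] at hQ
    let e : {x // x ∈ Q} → X × Y := fun x => (u x.1.1, v x.1.2)
    have he : Function.Injective e := by
      rintro ⟨⟨a, b⟩, ha⟩ ⟨⟨c, d⟩, hc⟩ h
      simp only [e, Prod.mk.injEq] at h
      have h1 := hu h.1
      have h2 := hv h.2
      subst h1; subst h2
      rfl
    have h3 : Pr (fun g0 : X × Y → Fin P => ∀ x ∈ Q, g0 (u x.1, v x.2) = 0) =
        Pr (fun g0 : X × Y → Fin P => (g0 ∘ e) = fun _ => 0) := by
      apply Pr_congr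
      intro g0
      constructor
      · intro h
        funext x
        exact h x.1 x.2
      · intro h x hx
        exact congrFun h ⟨x, hx⟩
    rw [h3, Pr_marginal he (fun h => h = fun _ => 0), Pr_eq_singleton]
    rw [Fintype.card_fun, Fintype.card_fin, Fintype.card_coe, hQ.2]
    push_cast
    exact le_rfl
  refine (Finset.sum_le_sum h2).trans ?_
  rw [Finset.sum_const, Finset.card_powersetCard, nsmul_eq_mul]
  rw [Finset.card_univ, Fintype.card_prod, Fintype.card_fin]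
  have h4 : ((r * r).choose (τ * r) : ℝ) ≤ 2 ^ (r ^ 2) := by
    have := Nat.choose_le_two_pow (r * r) (τ * r)
    calc ((r * r).choose (τ * r) : ℝ) ≤ ((2 ^ (r * r) : ℕ) : ℝ) := by exact_mod_cast this
      _ = _ := by push_cast; rw [pow_two]
  rw [mul_one_div]
  exact div_le_div_of_nonneg_right h4 (by positivity)

theorem Pr_pat_fail (hP : 2 ≤ P) (ρ Z : ℕ) (u : Fin Z × Fin (2 * ρ) → X)
    (v : Fin Z × Fin (2 * ρ) → Y) (hu : Function.Injective u) (hv : Function.Injective v) :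
    Pr (fun g0 : X × Y → Fin P => ¬ ∃ p p' : Fin Z, ∀ i j : Fin (2 * ρ),
      mat g0 (u (p, i)) (v (p', j)) = decide (i.val < ρ ∧ j.val < ρ)) ≤
      (1 - 1 / (P : ℝ) ^ ((2 * ρ) ^ 2)) ^ (Z ^ 2) := by
  classical
  let e : (Fin Z × Fin Z) × (Fin (2 * ρ) × Fin (2 * ρ)) → X × Y :=
    fun x => (u (x.1.1, x.2.1), v (x.1.2, x.2.2))
  have he : Function.Injective e := by
    rintro ⟨⟨a, b⟩, ⟨c, d⟩⟩ ⟨⟨a', b'⟩, ⟨c', d'⟩⟩ h
    simp only [e, Prod.mk.injEq] at h
    have h1 := hu h.1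
    have h2 := hv h.2
    simp only [Prod.mk.injEq] at h1 h2 ⊢
    exact ⟨⟨h1.1, h2.1⟩, h1.2, h2.2⟩
  let Q : (Fin (2 * ρ) × Fin (2 * ρ) → Fin P) → Prop := fun h =>
    ¬ ∀ i j, decide (h (i, j) = 0) = decide (i.val < ρ ∧ j.val < ρ)
  have h1 : Pr (fun g0 : X × Y → Fin P => ¬ ∃ p p' : Fin Z, ∀ i j : Fin (2 * ρ),
      mat g0 (u (p, i)) (v (p', j)) = decide (i.val < ρ ∧ j.val < ρ)) =
      Pr (fun g0 : X × Y → Fin P => ∀ q : Fin Z × Fin Z, Q (fun x => (g0 ∘ e) (q, x))) := by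
    apply Pr_congr
    intro g0
    constructor
    · intro h q hq
      exact h ⟨q.1, q.2, fun i j => hq i j⟩
    · rintro h ⟨p, p', hp⟩
      exact h (p, p') (fun i j => hp i j)
  rw [h1, Pr_marginal he (fun h => ∀ q : Fin Z × Fin Z, Q (fun x => h (q, x)))]
  rw [← Pr_equiv (Equiv.curry (Fin Z × Fin Z) (Fin (2 * ρ) × Fin (2 * ρ)) (Fin P)).symm]
  have h2 : Pr (fun f : Fin Z × Fin Z → (Fin (2 * ρ) × Fin (2 * ρ) → Fin P) =>
      ∀ q : Fin Z × Fin Z, Q (f q)) = (Pr Q) ^ (Z ^ 2) := by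
    rw [Pr_forall Q, Fintype.card_prod, Fintype.card_fin, pow_two Z]
  have h3 : Pr (fun x : Fin Z × Fin Z → (Fin (2 * ρ) × Fin (2 * ρ) → Fin P) =>
      ∀ q : Fin Z × Fin Z, Q (fun x_1 =>
        (Equiv.curry (Fin Z × Fin Z) (Fin (2 * ρ) × Fin (2 * ρ)) (Fin P)).symm x (q, x_1))) =
      (Pr Q) ^ (Z ^ 2) := by
    rw [← h2]
    rfl
  rw [h3]
  apply pow_le_pow_left₀ (Pr_nonneg _)
  have h4 : Pr Q = 1 - Pr (fun h : Fin (2 * ρ) × Fin (2 * ρ) → Fin P =>
      ∀ i j, decide (h (i, j) = 0) = decide (i.val < ρ ∧ j.val < ρ)) := Pr_not _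
  rw [h4]
  have h5 : 1 / (P : ℝ) ^ ((2 * ρ) ^ 2) ≤ Pr (fun h : Fin (2 * ρ) × Fin (2 * ρ) → Fin P =>
      ∀ i j, decide (h (i, j) = 0) = decide (i.val < ρ ∧ j.val < ρ)) := by
    have h01 : (⟨1, by omega⟩ : Fin P) ≠ 0 := by
      intro h
      have := congrArg Fin.val h
      simp at this
    let h0 : Fin (2 * ρ) × Fin (2 * ρ) → Fin P := fun x =>
      if x.1.val < ρ ∧ x.2.val < ρ then 0 else ⟨1, by omega⟩
    have h6 : Pr (fun h : Fin (2 * ρ) × Fin (2 * ρ) → Fin P => h = h0) ≤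
        Pr (fun h : Fin (2 * ρ) × Fin (2 * ρ) → Fin P =>
      ∀ i j, decide (h (i, j) = 0) = decide (i.val < ρ ∧ j.val < ρ)) := by
      apply Pr_mono
      rintro h rfl i j
      by_cases hij : i.val < ρ ∧ j.val < ρ
      · simp [h0, hij]
      · simp only [h0, hij, if_false, h01, decide_false]
    refine le_trans (le_of_eq ?_) h6
    rw [Pr_eq_singleton, Fintype.card_fun, Fintype.card_fin, Fintype.card_prod, Fintype.card_fin]
    push_cast
    rw [pow_two (2 * ρ)]
  linarith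

end

/-- Existence of a locally sparse matrix with the unavoidable pattern. -/
theorem exists_matrix (V P : ℕ) (hP : 2 ≤ P) (hX : Fintype.card X ≤ V) (hY : Fintype.card Y ≤ V)
    (ρ Z R0 τ : ℕ)
    (hF : ∑ r ∈ Finset.Icc 1 R0, (V : ℝ) ^ (2 * r) * ((2 : ℝ) ^ (r ^ 2) / (P : ℝ) ^ (τ * r)) ≤
      1 / 4)
    (hG : (V : ℝ) ^ (2 * (Z * (2 * ρ))) * (1 - 1 / (P : ℝ) ^ ((2 * ρ) ^ 2)) ^ (Z ^ 2) ≤ 1 / 4) :
    ∃ g : X → Y → Bool, SparseUpTo g R0 τ ∧ HasPat g ρ Z := by
  classical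
  haveI : NeZero P := ⟨by omega⟩
  have hP1 : (1 : ℝ) ≤ (P : ℝ) := by exact_mod_cast (by omega : 1 ≤ P)
  have hfail : Pr (fun g0 : X × Y → Fin P =>
      (∃ r ∈ Finset.Icc 1 R0, ∃ w : (Fin r → X) × (Fin r → Y), (Function.Injective w.1 ∧
        Function.Injective w.2) ∧ τ * r ≤
      ((univ : Finset (Fin r × Fin r)).filter fun x => mat g0 (w.1 x.1) (w.2 x.2) = true).card) ∨
      (∃ w : (Fin Z × Fin (2 * ρ) → X) × (Fin Z × Fin (2 * ρ) → Y), (Function.Injective w.1 ∧
        Function.Injective w.2) ∧ ¬ ∃ p p' : Fin Z, ∀ i j : Fin (2 * ρ),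
      mat g0 (w.1 (p, i)) (w.2 (p', j)) = decide (i.val < ρ ∧ j.val < ρ))) < 1 := by
    refine lt_of_le_of_lt (Pr_or_le _ _) ?_
    have hA : Pr (fun g0 : X × Y → Fin P =>
      ∃ r ∈ Finset.Icc 1 R0, ∃ w : (Fin r → X) × (Fin r → Y), (Function.Injective w.1 ∧
        Function.Injective w.2) ∧ τ * r ≤
      ((univ : Finset (Fin r × Fin r)).filter fun x => mat g0 (w.1 x.1) (w.2 x.2) = true).card) ≤
        1 / 4 := by
      refine (Pr_exists_mem_le _ _).trans ?_
      refine le_trans (Finset.sum_le_sum ?_) hF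
      intro r _
      refine (Pr_exists_le_card _ ((2 : ℝ) ^ (r ^ 2) / (P : ℝ) ^ (τ * r)) ?_).trans ?_
      · intro w
        by_cases hw : Function.Injective w.1 ∧ Function.Injective w.2
        · refine le_trans (Pr_mono ?_) (Pr_sparse_fail r τ w.1 w.2 hw.1 hw.2)
          intro g0 h
          exact h.2
        · have : Pr (fun g0 : X × Y → Fin P => (Function.Injective w.1 ∧
            Function.Injective w.2) ∧ τ * r ≤ ((univ : Finset (Fin r × Fin r)).filter
              fun x => mat g0 (w.1 x.1) (w.2 x.2) = true).card) = 0 := by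
            unfold Pr
            simp [hw]
          rw [this]
          positivity
      · apply mul_le_mul_of_nonneg_right _ (by positivity)
        rw [Fintype.card_prod, Fintype.card_fun, Fintype.card_fun, Fintype.card_fin]
        push_cast
        have h1 : (Fintype.card X : ℝ) ^ r ≤ (V : ℝ) ^ r :=
          pow_le_pow_left₀ (by positivity) (by exact_mod_cast hX) _
        have h2 : (Fintype.card Y : ℝ) ^ r ≤ (V : ℝ) ^ r :=
          pow_le_pow_left₀ (by positivity) (by exact_mod_cast hY) _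
        calc (Fintype.card X : ℝ) ^ r * (Fintype.card Y : ℝ) ^ r ≤ (V : ℝ) ^ r * (V : ℝ) ^ r :=
              mul_le_mul h1 h2 (by positivity) (by positivity)
          _ = _ := by rw [← pow_add]; congr 1; ring
    have hB : Pr (fun g0 : X × Y → Fin P =>
      ∃ w : (Fin Z × Fin (2 * ρ) → X) × (Fin Z × Fin (2 * ρ) → Y), (Function.Injective w.1 ∧
        Function.Injective w.2) ∧ ¬ ∃ p p' : Fin Z, ∀ i j : Fin (2 * ρ),
      mat g0 (w.1 (p, i)) (w.2 (p', j)) = decide (i.val < ρ ∧ j.val < ρ)) ≤ 1 / 4 := by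
      have hq : 0 ≤ 1 - 1 / (P : ℝ) ^ ((2 * ρ) ^ 2) := by
        have : 1 / (P : ℝ) ^ ((2 * ρ) ^ 2) ≤ 1 := by
          rw [div_le_one (by positivity)]
          exact one_le_pow₀ hP1
        linarith
      refine (Pr_exists_le_card _ ((1 - 1 / (P : ℝ) ^ ((2 * ρ) ^ 2)) ^ (Z ^ 2)) ?_).trans ?_
      · intro w
        by_cases hw : Function.Injective w.1 ∧ Function.Injective w.2
        · refine le_trans (Pr_mono ?_) (Pr_pat_fail hP ρ Z w.1 w.2 hw.1 hw.2)
          intro g0 h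
          exact h.2
        · have : Pr (fun g0 : X × Y → Fin P => (Function.Injective w.1 ∧
        Function.Injective w.2) ∧ ¬ ∃ p p' : Fin Z, ∀ i j : Fin (2 * ρ),
      mat g0 (w.1 (p, i)) (w.2 (p', j)) = decide (i.val < ρ ∧ j.val < ρ)) = 0 := by
            unfold Pr
            simp [hw]
          rw [this]
          positivity
      · refine le_trans (mul_le_mul_of_nonneg_right ?_ (by positivity)) hG
        rw [Fintype.card_prod, Fintype.card_fun, Fintype.card_fun, Fintype.card_prod,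
          Fintype.card_fin, Fintype.card_fin]
        push_cast
        have h1 : (Fintype.card X : ℝ) ^ (Z * (2 * ρ)) ≤ (V : ℝ) ^ (Z * (2 * ρ)) :=
          pow_le_pow_left₀ (by positivity) (by exact_mod_cast hX) _
        have h2 : (Fintype.card Y : ℝ) ^ (Z * (2 * ρ)) ≤ (V : ℝ) ^ (Z * (2 * ρ)) :=
          pow_le_pow_left₀ (by positivity) (by exact_mod_cast hY) _
        calc (Fintype.card X : ℝ) ^ (Z * (2 * ρ)) * (Fintype.card Y : ℝ) ^ (Z * (2 * ρ))
            ≤ (V : ℝ) ^ (Z * (2 * ρ)) * (V : ℝ) ^ (Z * (2 * ρ)) :=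
              mul_le_mul h1 h2 (by positivity) (by positivity)
          _ = _ := by rw [← pow_add]; congr 1; ring
    linarith
  obtain ⟨g0, hg0⟩ := exists_of_Pr_lt_one hfail
  refine ⟨mat g0, ?_, ?_⟩
  · intro r h1 h2 u v hu hv
    by_contra hc
    push Not at hc
    exact hg0 (Or.inl ⟨r, Finset.mem_Icc.2 ⟨h1, h2⟩, (u, v), ⟨hu, hv⟩, hc⟩)
  · intro u v hu hv
    by_contra hc
    exact hg0 (Or.inr ⟨(u, v), ⟨hu, hv⟩, hc⟩)

end Pool.Agent.Hhelper46.OR
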