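import Mathlib

/-! Uniform probability on finite types, in the minimal form needed for union bounds. -/

namespace Pool.Agent.Hhelper46.OR

open Finset

/-- The probability of `p` under the uniform distribution on the finite type `Ω`. -/
noncomputable def Pr {Ω : Type*} [Fintype Ω] (p : Ω → Prop) : ℝ :=
  (({x | p x} : Set Ω).ncard : ℝ) / (Fintype.card Ω : ℝ)

section basic
variable {Ω : Type*} [Fintype Ω]

theorem Pr_nonneg (p : Ω → Prop) : 0 ≤ Pr p := by
  unfold Pr; positivity

theorem Pr_mono {p q : Ω → Prop} (h : ∀ x, p x → q x) : Pr p ≤ Pr q := by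
  unfold Pr
  have : ({x | p x} : Set Ω).ncard ≤ ({x | q x} : Set Ω).ncard :=
    Set.ncard_le_ncard (fun x hx => h x hx) (Set.toFinite _)
  exact div_le_div_of_nonneg_right (by exact_mod_cast this) (by positivity)

theorem Pr_congr {p q : Ω → Prop} (h : ∀ x, p x ↔ q x) : Pr p = Pr q :=
  le_antisymm (Pr_mono fun x => (h x).1) (Pr_mono fun x => (h x).2)

theorem Pr_le_one (p : Ω → Prop) : Pr p ≤ 1 := by
  unfold Pr
  apply div_le_one_of_le₀ _ (by positivity)
  have := Set.ncard_le_card (s := ({x | p x} : Set Ω))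
  rw [Nat.card_eq_fintype_card] at this
  exact_mod_cast this

theorem Pr_not [Nonempty Ω] (p : Ω → Prop) : Pr (fun x => ¬ p x) = 1 - Pr p := by
  unfold Pr
  have h : ({x | p x} : Set Ω).ncard + ({x | ¬ p x} : Set Ω).ncard = Fintype.card Ω := by
    have := Set.ncard_add_ncard_compl ({x | p x} : Set Ω)
    rw [Nat.card_eq_fintype_card] at this
    exact this
  have h0 : (Fintype.card Ω : ℝ) ≠ 0 := by
    exact_mod_cast Fintype.card_ne_zero
  rw [eq_sub_iff_add_eq, ← add_div, div_eq_one_iff_eq h0]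
  rw [add_comm]
  exact_mod_cast h

theorem exists_of_Pr_lt_one {p : Ω → Prop} [Nonempty Ω] (h : Pr p < 1) : ∃ x, ¬ p x := by
  by_contra hc
  push Not at hc
  have h1 : Pr (fun x => ¬ p x) = 0 := by
    unfold Pr
    have : ({x | ¬ p x} : Set Ω) = ∅ := by
      ext x
      simp [hc x]
    rw [this]
    simp
  rw [Pr_not] at h1
  linarith

theorem Pr_or_le (p q : Ω → Prop) : Pr (fun x => p x ∨ q x) ≤ Pr p + Pr q := by
  unfold Pr
  rw [← add_div]
  apply div_le_div_of_nonneg_right _ (by positivity)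
  have : ({x | p x ∨ q x} : Set Ω) = {x | p x} ∪ {x | q x} := rfl
  rw [this]
  exact_mod_cast Set.ncard_union_le _ _

theorem Pr_exists_mem_le {ι : Type*} (s : Finset ι) (p : ι → Ω → Prop) :
    Pr (fun x => ∃ i ∈ s, p i x) ≤ ∑ i ∈ s, Pr (p i) := by
  classical
  induction s using Finset.induction_on with
  | empty =>
    simp only [Finset.notMem_empty, false_and, exists_false, Finset.sum_empty]
    unfold Pr
    simp
  | insert a s ha ih =>
    rw [Finset.sum_insert ha]
    calc Pr (fun x => ∃ i ∈ insert a s, p i x)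
        ≤ Pr (fun x => p a x ∨ ∃ i ∈ s, p i x) := by
          apply Pr_mono
          rintro x ⟨i, hi, hx⟩
          rw [Finset.mem_insert] at hi
          rcases hi with rfl | hi
          · exact Or.inl hx
          · exact Or.inr ⟨i, hi, hx⟩
      _ ≤ Pr (p a) + Pr (fun x => ∃ i ∈ s, p i x) := Pr_or_le _ _
      _ ≤ _ := by linarith

theorem Pr_exists_le {ι : Type*} [Fintype ι] (p : ι → Ω → Prop) :
    Pr (fun x => ∃ i, p i x) ≤ ∑ i, Pr (p i) := by
  refine le_trans (Pr_mono ?_) (Pr_exists_mem_le univ p)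
  rintro x ⟨i, hi⟩
  exact ⟨i, mem_univ _, hi⟩

/-- Union bound with a uniform bound on the individual probabilities. -/
theorem Pr_exists_le_card {ι : Type*} [Fintype ι] (p : ι → Ω → Prop) (c : ℝ)
    (h : ∀ i, Pr (p i) ≤ c) : Pr (fun x => ∃ i, p i x) ≤ (Fintype.card ι : ℝ) * c := by
  refine (Pr_exists_le p).trans ?_
  calc ∑ i, Pr (p i) ≤ ∑ _i : ι, c := Finset.sum_le_sum fun i _ => h i
    _ = _ := by simp

theorem Pr_equiv {Ω' : Type*} [Fintype Ω'] (e : Ω ≃ Ω') (p : Ω' → Prop) :
    Pr (fun x => p (e x)) = Pr p := by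
  unfold Pr
  rw [Fintype.card_congr e]
  congr 2
  have : ({x | p x} : Set Ω') = e '' {x | p (e x)} := by
    ext y
    constructor
    · intro hy
      exact ⟨e.symm y, by simpa using hy, by simp⟩
    · rintro ⟨x, hx, rfl⟩
      exact hx
  rw [this, Set.ncard_image_of_injective _ e.injective]

theorem Pr_fst {Ω' : Type*} [Fintype Ω'] [Nonempty Ω'] (p : Ω → Prop) :
    Pr (fun x : Ω × Ω' => p x.1) = Pr p := by
  unfold Pr
  have : ({x : Ω × Ω' | p x.1} : Set (Ω × Ω')) = ({x | p x} : Set Ω) ×ˢ (Set.univ : Set Ω') := by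
    ext ⟨a, b⟩
    simp
  rw [this, Set.ncard_prod, Set.ncard_univ, Fintype.card_prod, Nat.card_eq_fintype_card]
  push_cast
  have h0 : (Fintype.card Ω' : ℝ) ≠ 0 := by
    exact_mod_cast Fintype.card_ne_zero
  rw [mul_div_mul_right _ _ h0]

theorem Pr_snd {Ω' : Type*} [Fintype Ω'] [Nonempty Ω'] (p : Ω → Prop) :
    Pr (fun x : Ω' × Ω => p x.2) = Pr p := by
  rw [← Pr_fst (Ω' := Ω') p, ← Pr_equiv (Equiv.prodComm Ω' Ω)]
  rfl

end basic

section fun_space
variable {A B V : Type*} [Fintype A] [Fintype B] [Fintype V] [DecidableEq A] [DecidableEq B]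

/-- Marginals of the uniform distribution on a function space. -/
theorem Pr_marginal [Nonempty V] {e : B → A} (he : Function.Injective e)
    (Q : (B → V) → Prop) : Pr (fun f : A → V => Q (f ∘ e)) = Pr Q := by
  classical
  let E1 : (A → V) ≃ ({a // a ∈ Set.range e} → V) × ({a // ¬ a ∈ Set.range e} → V) :=
    Equiv.piEquivPiSubtypeProd (· ∈ Set.range e) (fun _ => V)
  let E2 : B ≃ {a // a ∈ Set.range e} := Equiv.ofInjective e he
  have h1 : Pr (fun f : A → V => Q (f ∘ e)) =
      Pr (fun x : ({a // a ∈ Set.range e} → V) × ({a // ¬ a ∈ Set.range e} → V) =>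
        Q (x.1 ∘ E2)) := by
    rw [← Pr_equiv E1]
    rfl
  rw [h1, Pr_fst (fun x : ({a // a ∈ Set.range e} → V) => Q (x ∘ E2))]
  rw [← Pr_equiv (Equiv.arrowCongr E2 (Equiv.refl V)) (fun x => Q (x ∘ E2))]
  apply Pr_congr
  intro f
  have : (Equiv.arrowCongr E2 (Equiv.refl V)) f ∘ E2 = f := by
    funext b
    simp [Equiv.arrowCongr]
  simp only [this]

/-- Independence of coordinates. -/
theorem Pr_forall {ι Ω : Type*} [Fintype ι] [DecidableEq ι] [Fintype Ω] (p : Ω → Prop) :
    Pr (fun f : ι → Ω => ∀ i, p (f i)) = (Pr p) ^ (Fintype.card ι) := by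
  classical
  unfold Pr
  have : ({f : ι → Ω | ∀ i, p (f i)} : Set (ι → Ω)) =
      ((Fintype.piFinset (fun _ : ι => univ.filter p) : Finset (ι → Ω)) : Set (ι → Ω)) := by
    ext f
    simp [Fintype.mem_piFinset]
  have h2 : ({x | p x} : Set Ω) = ((univ.filter p : Finset Ω) : Set Ω) := by
    ext x; simp
  rw [this, Set.ncard_coe_finset, Fintype.card_piFinset, Fintype.card_fun, div_pow, h2,
    Set.ncard_coe_finset]
  simp

theorem Pr_eq_singleton {Ω : Type*} [Fintype Ω] (a : Ω) :
    Pr (fun x : Ω => x = a) = 1 / (Fintype.card Ω : ℝ) := by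
  unfold Pr
  have : ({x | x = a} : Set Ω) = {a} := rfl
  rw [this]
  simp

end fun_space

end Pool.Agent.Hhelper46.OR
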